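import Pool.Agent.Run7.h529.FB.ZPlain

/-!
The exponential moments of the number of bridges; tail bounds; the three lattices.
-/

set_option linter.unusedSectionVars false

namespace Run7.h529.FB

open H982 hiding PU

variable {n : ℕ} {G : Lattice}

/-! ### the three lattices -/

lemma range_val (G : Lattice) (n : ℕ) :
    Set.range (fun ω : Walk G n => ω.1) = walks (Adj G) n := by
  ext f
  constructor
  · rintro ⟨ω, rfl⟩; exact ω.2
  · intro h; exact ⟨⟨f, h⟩, rfl⟩

lemma sq_bound : ∃ K : ℝ, 0 < K ∧ ∀ n : ℕ, 2 ≤ n → ∀ h ∈ Coords .square, ∀ lam : ℝ, 1 ≤ lam →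
    mean .square n (fun ω => lam ^ V (fun i => h (ω.1 i))) ≤
      Real.exp (K * lam ^ 2 * Real.log n ^ 2) := by
  obtain ⟨K, hK, hg⟩ := @gen_walk H982P.sqL _ _ _ H982P.coord_sq
  refine ⟨K, hK, fun n hn h hh lam hl => ?_⟩
  have key := hg n hn (Walk .square n) (fun ω => ω.1) Subtype.val_injective
    (range_val .square n)
  have hh' : h = (fun p => p.1) ∨ h = (fun p => p.2) := hh
  rcases hh' with rfl | rfl
  · exact key id Function.injective_id rfl (fun p q h => h) lam hl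
  · refine key (fun p => (p.2, p.1)) ?_ rfl ?_ lam hl
    · rintro ⟨a, b⟩ ⟨c, d⟩ h
      simp only [Prod.mk.injEq] at h ⊢
      exact ⟨h.2, h.1⟩
    · rintro ⟨a, b⟩ ⟨c, d⟩ h
      simp only at h ⊢
      omega

lemma tri_bound : ∃ K : ℝ, 0 < K ∧ ∀ n : ℕ, 2 ≤ n → ∀ h ∈ Coords .triangular, ∀ lam : ℝ,
    1 ≤ lam → mean .triangular n (fun ω => lam ^ V (fun i => h (ω.1 i))) ≤
      Real.exp (K * lam ^ 2 * Real.log n ^ 2) := by
  obtain ⟨K, hK, hg⟩ := @gen_walk H982P.triL _ _ _ H982P.coord_tri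
  refine ⟨K, hK, fun n hn h hh lam hl => ?_⟩
  have key := hg n hn (Walk .triangular n) (fun ω => ω.1) Subtype.val_injective
    (range_val .triangular n)
  have hh' : h = (fun p => p.1) ∨ h = (fun p => p.2) ∨ h = (fun p => p.1 + p.2) := hh
  rcases hh' with rfl | rfl | rfl
  · have := key (fun p => (p.1 + p.2, - p.2)) ?_ rfl ?_ lam hl
    · have e : ∀ ω : Walk .triangular n, (fun i => ((fun p : ℤ × ℤ => (p.1 + p.2, p.1 - p.2))
          ((fun p : ℤ × ℤ => (p.1 + p.2, - p.2)) (ω.1 i))).1) = (fun i => (ω.1 i).1) := by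
        intro ω
        funext i
        simp
      simp only [e] at this
      exact this
    · rintro ⟨a, b⟩ ⟨c, d⟩ h
      simp only [Prod.mk.injEq] at h ⊢
      omega
    · rintro ⟨a, b⟩ ⟨c, d⟩ h
      simp only [Set.mem_insert_iff, Set.mem_singleton_iff, Prod.mk_sub_mk, Prod.mk.injEq] at h ⊢
      omega
  · have := key (fun p => (- p.1, p.1 + p.2)) ?_ rfl ?_ lam hl
    · have e : ∀ ω : Walk .triangular n, (fun i => ((fun p : ℤ × ℤ => (p.1 + p.2, p.1 - p.2))
          ((fun p : ℤ × ℤ => (- p.1, p.1 + p.2)) (ω.1 i))).1) = (fun i => (ω.1 i).2) := by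
        intro ω
        funext i
        simp
      simp only [e] at this
      exact this
    · rintro ⟨a, b⟩ ⟨c, d⟩ h
      simp only [Prod.mk.injEq] at h ⊢
      omega
    · rintro ⟨a, b⟩ ⟨c, d⟩ h
      simp only [Set.mem_insert_iff, Set.mem_singleton_iff, Prod.mk_sub_mk, Prod.mk.injEq] at h ⊢
      omega
  · exact key id Function.injective_id rfl (fun p q h => h) lam hl

lemma hex_bound : ∃ K : ℝ, 0 < K ∧ ∀ n : ℕ, 2 ≤ n → ∀ h ∈ Coords .honeycomb, ∀ lam : ℝ,
    1 ≤ lam → mean .honeycomb n (fun ω => lam ^ V (fun i => h (ω.1 i))) ≤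
      Real.exp (K * lam ^ 2 * Real.log n ^ 2) := by
  obtain ⟨K, hK, hg⟩ := @gen_walk H982P.hexL _ _ _ H982P.coord_hex
  refine ⟨K, hK, fun n hn h hh lam hl => ?_⟩
  have key := hg n hn (Walk .honeycomb n) (fun ω => ω.1) Subtype.val_injective
    (range_val .honeycomb n)
  have hh' : h = (fun p => p.1) := hh
  subst hh'
  exact key id Function.injective_id rfl (fun p q h => h) lam hl

/-- **exponential moments** -/
theorem mean_V : ∃ K : ℝ, 0 < K ∧ ∀ G : Lattice, ∀ n : ℕ, 2 ≤ n → ∀ h ∈ Coords G, ∀ lam : ℝ,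
    1 ≤ lam → mean G n (fun ω => lam ^ V (fun i => h (ω.1 i))) ≤
      Real.exp (K * lam ^ 2 * Real.log n ^ 2) := by
  obtain ⟨K1, hK1, h1⟩ := sq_bound
  obtain ⟨K2, hK2, h2⟩ := tri_bound
  obtain ⟨K3, hK3, h3⟩ := hex_bound
  refine ⟨K1 + K2 + K3, by positivity, fun G n hn h hh lam hl => ?_⟩
  have key : ∀ K : ℝ, K ≤ K1 + K2 + K3 → Real.exp (K * lam ^ 2 * Real.log n ^ 2) ≤
      Real.exp ((K1 + K2 + K3) * lam ^ 2 * Real.log n ^ 2) := by
    intro K hK
    apply Real.exp_le_exp.mpr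
    gcongr
  cases G with
  | square => exact (h1 n hn h hh lam hl).trans (key K1 (by linarith))
  | triangular => exact (h2 n hn h hh lam hl).trans (key K2 (by linarith))
  | honeycomb => exact (h3 n hn h hh lam hl).trans (key K3 (by linarith))

/-- every walk has a word, in each coordinate -/
lemma exists_isWd (ω : Walk G n) {h : ℤ × ℤ → ℤ} (hh : h ∈ Coords G) :
    ∃ v : List St, IsWd v (fun i => h (ω.1 i)) := by
  have gen : ∀ (L : H982.Lat) (A : ℤ × ℤ → ℤ × ℤ → Prop) (φ : ℤ × ℤ → ℤ × ℤ)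
      (R : ℕ → ℤ × ℤ → Prop) (_ : @Coord L A φ R) (B : ℤ × ℤ → ℤ × ℤ)
      (_ : Function.Injective B) (_ : B 0 = 0)
      (_ : ∀ p q, A p q → A (B p) (B q)) (_ : ω.1 ∈ walks A n),
      ∃ v : List St, IsWd v (fun i => (φ (B (ω.1 i))).1) := by
    intro L A φ R H B hB hB0 hBA hω
    obtain ⟨h2, h3, h4⟩ := hω
    have hm : (fun i => B (ω.1 i)) ∈ walks A n :=
      ⟨by simp only [h2, hB0], hB.comp h3, fun i => hBA _ _ (h4 i)⟩
    obtain ⟨w, -, h5, -⟩ := @exists_word n L A φ R H _ hm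
    exact ⟨w, h5⟩
  cases G with
  | square =>
    have hh' : h = (fun p => p.1) ∨ h = (fun p => p.2) := hh
    rcases hh' with rfl | rfl
    · exact gen _ _ _ _ H982P.coord_sq id Function.injective_id rfl (fun p q h => h) ω.2
    · refine gen _ _ _ _ H982P.coord_sq (fun p => (p.2, p.1)) ?_ rfl ?_ ω.2
      · rintro ⟨a, b⟩ ⟨c, d⟩ h
        simp only [Prod.mk.injEq] at h ⊢
        exact ⟨h.2, h.1⟩
      · rintro ⟨a, b⟩ ⟨c, d⟩ h
        simp only at h ⊢
        omega
  | triangular =>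
    have hh' : h = (fun p => p.1) ∨ h = (fun p => p.2) ∨ h = (fun p => p.1 + p.2) := hh
    rcases hh' with rfl | rfl | rfl
    · obtain ⟨v, hv⟩ := gen _ _ _ _ H982P.coord_tri (fun p => (p.1 + p.2, - p.2)) (by
        rintro ⟨a, b⟩ ⟨c, d⟩ h
        simp only [Prod.mk.injEq] at h ⊢
        omega) rfl (by
        rintro ⟨a, b⟩ ⟨c, d⟩ h
        simp only [Set.mem_insert_iff, Set.mem_singleton_iff, Prod.mk_sub_mk,
          Prod.mk.injEq] at h ⊢
        omega) ω.2
      refine ⟨v, ?_⟩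
      have e : (fun i => ((fun p : ℤ × ℤ => (p.1 + p.2, p.1 - p.2))
          ((fun p : ℤ × ℤ => (p.1 + p.2, - p.2)) (ω.1 i))).1) = (fun i => (ω.1 i).1) := by
        funext i
        simp
      rw [e] at hv
      exact hv
    · obtain ⟨v, hv⟩ := gen _ _ _ _ H982P.coord_tri (fun p => (- p.1, p.1 + p.2)) (by
        rintro ⟨a, b⟩ ⟨c, d⟩ h
        simp only [Prod.mk.injEq] at h ⊢
        omega) rfl (by
        rintro ⟨a, b⟩ ⟨c, d⟩ h
        simp only [Set.mem_insert_iff, Set.mem_singleton_iff, Prod.mk_sub_mk,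
          Prod.mk.injEq] at h ⊢
        omega) ω.2
      refine ⟨v, ?_⟩
      have e : (fun i => ((fun p : ℤ × ℤ => (p.1 + p.2, p.1 - p.2))
          ((fun p : ℤ × ℤ => (- p.1, p.1 + p.2)) (ω.1 i))).1) = (fun i => (ω.1 i).2) := by
        funext i
        simp
      rw [e] at hv
      exact hv
    · exact gen _ _ _ _ H982P.coord_tri id Function.injective_id rfl (fun p q h => h) ω.2
  | honeycomb =>
    have hh' : h = (fun p => p.1) := hh
    subst hh'
    exact gen _ _ _ _ H982P.coord_hex id Function.injective_id rfl (fun p q h => h) ω.2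

lemma V_spec' (ω : Walk G n) {h : ℤ × ℤ → ℤ} (hh : h ∈ Coords G) {s t : Fin (n + 1)}
    (hst : s ≤ t) : CutInto (fun i => h (ω.1 i)) (V (fun i => h (ω.1 i))) s t := by
  obtain ⟨v, hv⟩ := exists_isWd ω hh
  exact V_spec hv hst

/-! ### tails -/

lemma card_pos (G : Lattice) (n : ℕ) : (0 : ℝ) < Fintype.card (Walk G n) := by
  obtain ⟨L, h⟩ := walk_card G n
  rw [Nat.card_eq_fintype_card] at h
  exact lt_of_lt_of_le (pow_pos (@H982.mu_pos L) n) h

lemma mean_mono {f g : Walk G n → ℝ} (h : ∀ ω, f ω ≤ g ω) : mean G n f ≤ mean G n g := by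
  unfold mean
  have := card_pos G n
  gcongr with ω _
  exact h ω

lemma mean_const_mul (c : ℝ) (f : Walk G n → ℝ) :
    mean G n (fun ω => c * f ω) = c * mean G n f := by
  unfold mean
  rw [← Finset.mul_sum, mul_div_assoc]

lemma mean_one : mean G n (fun _ => 1) = 1 := by
  unfold mean
  have := card_pos G n
  rw [Finset.sum_const, Finset.card_univ, nsmul_eq_mul, mul_one, div_self this.ne']

lemma prob_compl (A : Walk G n → Prop) : prob G n A = 1 - prob G n (fun ω => ¬ A ω) := by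
  unfold prob
  have h : mean G n (fun ω => @ite _ (A ω) (Classical.propDecidable _) (1 : ℝ) 0) +
      mean G n (fun ω => @ite _ (¬ A ω) (Classical.propDecidable _) (1 : ℝ) 0) =
        mean G n (fun _ => 1) := by
    unfold mean
    rw [← add_div, ← Finset.sum_add_distrib]
    congr 1
    apply Finset.sum_congr rfl
    intro ω _
    by_cases h : A ω <;> simp [h]
  rw [mean_one] at h
  linarith

/-- a concatenation of few bridges contains a long bridge -/
lemma exists_long {x : Fin (n + 1) → ℤ} {m : ℕ} {s t : Fin (n + 1)} {y : ℝ}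
    (h : CutInto x m s t) (hm : (m : ℝ) ≤ y) : ∃ a b : Fin (n + 1), s ≤ a ∧ a ≤ b ∧ b ≤ t ∧
    Bridge x a b ∧ ((t : ℕ) : ℝ) - ((s : ℕ) : ℝ) ≤ y * (((b : ℕ) : ℝ) - ((a : ℕ) : ℝ)) := by
  obtain ⟨τ, h1, h2, h3⟩ := h
  have hmono : ∀ i j, i ≤ j → j ≤ m → τ i ≤ τ j := by
    intro i j hij
    induction j, hij using Nat.le_induction with
    | base => intro _; exact le_rfl
    | succ j hj ih => intro hjm; exact (ih (by omega)).trans (h3 j (by omega)).1
  by_contra hcon
  push Not at hcon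
  have h4 : ∀ i < m, y * (((τ (i + 1) : ℕ) : ℝ) - ((τ i : ℕ) : ℝ)) <
      ((t : ℕ) : ℝ) - ((s : ℕ) : ℝ) := by
    intro i hi
    refine hcon (τ i) (τ (i + 1)) ?_ (h3 i hi).1 ?_ (h3 i hi)
    · rw [← h1]; exact hmono 0 i (by omega) (by omega)
    · rw [← h2]; exact hmono (i + 1) m (by omega) le_rfl
  rcases Nat.eq_zero_or_pos m with hm0 | hm0
  · subst hm0
    have hst : s = t := by rw [← h1, ← h2]
    subst hst
    have := hcon s s le_rfl le_rfl le_rfl (bridge_self x s)
    simp at this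
  · have h5 : ∑ i ∈ Finset.range m, y * (((τ (i + 1) : ℕ) : ℝ) - ((τ i : ℕ) : ℝ)) <
        ∑ i ∈ Finset.range m, (((t : ℕ) : ℝ) - ((s : ℕ) : ℝ)) := by
      apply Finset.sum_lt_sum_of_nonempty
      · exact ⟨0, Finset.mem_range.mpr hm0⟩
      · intro i hi
        exact h4 i (Finset.mem_range.mp hi)
    rw [← Finset.mul_sum, Finset.sum_range_sub (fun i => ((τ i : ℕ) : ℝ)), h1, h2,
      Finset.sum_const, Finset.card_range, nsmul_eq_mul] at h5
    have hst : ((s : ℕ) : ℝ) ≤ ((t : ℕ) : ℝ) := by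
      have : s ≤ t := by rw [← h1, ← h2]; exact hmono 0 m (by omega) le_rfl
      exact_mod_cast (this : (s : ℕ) ≤ t)
    nlinarith

theorem main : ∃ K : ℝ, 0 < K ∧ ∀ G : Lattice, ∀ n : ℕ, 2 ≤ n → ∀ h ∈ Coords G,
    (∀ lam : ℝ, 1 ≤ lam → mean G n (fun ω => lam ^ V (fun i => h (ω.1 i))) ≤
      Real.exp (K * lam ^ 2 * Real.log n ^ 2)) ∧
    (∀ x y : ℝ, 0 ≤ x → y = K * (Real.log n ^ 2 + x) →
      1 - Real.exp (-x) ≤ prob G n (fun ω => ∀ s t : Fin (n + 1), s ≤ t →
        CutInto (fun i => h (ω.1 i)) ⌊y⌋₊ s t ∧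
        ∃ a b : Fin (n + 1), s ≤ a ∧ a ≤ b ∧ b ≤ t ∧ Bridge (fun i => h (ω.1 i)) a b ∧
          ((t : ℕ) : ℝ) - ((s : ℕ) : ℝ) ≤ y * (((b : ℕ) : ℝ) - ((a : ℕ) : ℝ)))) := by
  obtain ⟨K, hK, H⟩ := mean_V
  have he : Real.exp 1 ^ 2 ≤ 9 := by
    have := Real.exp_one_lt_d9
    have h0 := Real.exp_pos 1
    nlinarith
  have he1 : 1 ≤ Real.exp 1 := Real.one_le_exp (by norm_num)
  refine ⟨9 * K + 1, by positivity,
    fun G n hn h hh => ⟨fun lam hl => ?_, fun x y hx hy => ?_⟩⟩
  · refine (H G n hn h hh lam hl).trans (Real.exp_le_exp.mpr ?_)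
    have : 0 ≤ lam ^ 2 * Real.log n ^ 2 := by positivity
    nlinarith
  · have hy0 : 0 ≤ y := by rw [hy]; positivity
    set B : Walk G n → Prop := fun ω => ∀ s t : Fin (n + 1), s ≤ t →
      CutInto (fun i => h (ω.1 i)) ⌊y⌋₊ s t with hB
    have h1 : ∀ ω : Walk G n, @ite _ (¬ B ω) (Classical.propDecidable _) (1 : ℝ) 0 ≤
        Real.exp (-y) * Real.exp 1 ^ V (fun i => h (ω.1 i)) := by
      intro ω
      by_cases h2 : B ω
      · rw [if_neg (by simpa using h2)]
        positivity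
      · rw [if_pos h2]
        have h3 : ⌊y⌋₊ < V (fun i => h (ω.1 i)) := by
          by_contra hcon
          push Not at hcon
          exact h2 fun s t hst => (V_spec' ω hh hst).mono hcon
        have h4 : y < V (fun i => h (ω.1 i)) := (Nat.floor_lt hy0).mp h3
        rw [← Real.exp_nat_mul, ← Real.exp_add]
        apply Real.one_le_exp
        linarith
    have h5 : prob G n (fun ω => ¬ B ω) ≤ Real.exp (-x) := by
      calc prob G n (fun ω => ¬ B ω) ≤
            mean G n (fun ω => Real.exp (-y) * Real.exp 1 ^ V (fun i => h (ω.1 i))) :=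
            mean_mono h1
        _ = Real.exp (-y) * mean G n (fun ω => Real.exp 1 ^ V (fun i => h (ω.1 i))) :=
            mean_const_mul _ _
        _ ≤ Real.exp (-y) * Real.exp (K * Real.exp 1 ^ 2 * Real.log n ^ 2) := by
            gcongr
            exact H G n hn h hh _ he1
        _ = Real.exp (-y + K * Real.exp 1 ^ 2 * Real.log n ^ 2) := (Real.exp_add _ _).symm
        _ ≤ _ := by
            apply Real.exp_le_exp.mpr
            rw [hy]
            have hl2 : 0 ≤ Real.log n ^ 2 := by positivity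
            have h6 : K * Real.exp 1 ^ 2 * Real.log n ^ 2 ≤ 9 * K * Real.log n ^ 2 := by
              have : K * Real.exp 1 ^ 2 ≤ 9 * K := by nlinarith
              exact mul_le_mul_of_nonneg_right this hl2
            nlinarith [mul_nonneg hK.le hx]
    rw [prob_compl]
    refine sub_le_sub_left (le_trans ?_ h5) 1
    unfold prob
    apply mean_mono
    intro ω
    by_cases hBω : B ω
    · rw [if_neg, if_neg]
      · simpa using hBω
      · intro hcon
        apply hcon
        intro s t hst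
        refine ⟨hBω s t hst, exists_long (hBω s t hst) (Nat.floor_le hy0)⟩
    · rw [if_pos (show ¬ B ω from hBω)]
      split_ifs <;> norm_num

end Run7.h529.FB
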