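import Pool.Agent.H982R3.Plain

/-!
Plain definitions: self-avoiding walks on the square, triangular and honeycomb lattices, the
uniform measure, bridges, concatenations of bridges.
-/

namespace Run7.h529.FB

/-- the three planar lattices -/
inductive Lattice
  | square | triangular | honeycomb

/-- The edges. All three lattices are drawn on `ℤ × ℤ`; the honeycomb lattice as a brick wall, with
the vertical edges from `(a, b)` to `(a, b + 1)` for even `a + b`. -/
def Adj : Lattice → ℤ × ℤ → ℤ × ℤ → Prop
  | .square => fun p q => |p.1 - q.1| + |p.2 - q.2| = 1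
  | .triangular => fun p q =>
      q - p ∈ ({(1, 0), (-1, 0), (0, 1), (0, -1), (1, -1), (-1, 1)} : Set (ℤ × ℤ))
  | .honeycomb => fun p q =>
      q - p = (1, 0) ∨ q - p = (-1, 0) ∨ (q - p = (0, 1) ∧ Even (p.1 + p.2)) ∨
      (q - p = (0, -1) ∧ Even (q.1 + q.2))

/-- coordinates on the three lattices, which change by at most one in every step and whose level
lines are axes of symmetry -/
def Coords : Lattice → Set (ℤ × ℤ → ℤ)
  | .square => {fun p => p.1, fun p => p.2}
  | .triangular => {fun p => p.1, fun p => p.2, fun p => p.1 + p.2}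
  | .honeycomb => {fun p => p.1}

/-- the self-avoiding walks with `n` steps which start at the origin -/
abbrev Walk (G : Lattice) (n : ℕ) : Type := {ω : Fin (n + 1) → ℤ × ℤ //
  ω 0 = 0 ∧ Function.Injective ω ∧ ∀ i : Fin n, Adj G (ω i.castSucc) (ω i.succ)}

lemma walk_card (G : Lattice) (n : ℕ) : ∃ L : H982.Lat,
    @H982.mu L ^ n ≤ (Nat.card (Walk G n) : ℝ) := by
  cases G with
  | square =>
    refine ⟨H982P.sqL, ?_⟩
    have h := @H982.ncard_walks H982P.sqL _ _ _ H982P.coord_sq n
    have h2 := @H982.mu_pow_le H982P.sqL n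
    rw [← h] at h2
    rw [← Nat.card_coe_set_eq] at h2
    exact h2
  | triangular =>
    refine ⟨H982P.triL, ?_⟩
    have h := @H982.ncard_walks H982P.triL _ _ _ H982P.coord_tri n
    have h2 := @H982.mu_pow_le H982P.triL n
    rw [← h] at h2
    rw [← Nat.card_coe_set_eq] at h2
    exact h2
  | honeycomb =>
    refine ⟨H982P.hexL, ?_⟩
    have h := @H982.ncard_walks H982P.hexL _ _ _ H982P.coord_hex n
    have h2 := @H982.mu_pow_le H982P.hexL n
    rw [← h] at h2
    rw [← Nat.card_coe_set_eq] at h2
    exact h2

/-- there are finitely many self-avoiding walks with `n` steps -/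
instance finite_walk (G : Lattice) (n : ℕ) : Finite (Walk G n) := by
  apply Nat.finite_of_card_ne_zero
  obtain ⟨L, h⟩ := walk_card G n
  have h1 : (0 : ℝ) < Nat.card (Walk G n) := lt_of_lt_of_le (pow_pos (@H982.mu_pos L) n) h
  intro h0
  rw [h0] at h1
  simp at h1

noncomputable instance fintype_walk (G : Lattice) (n : ℕ) : Fintype (Walk G n) :=
  Fintype.ofFinite _

/-- the mean of `f` over all self-avoiding walks with `n` steps -/
noncomputable def mean (G : Lattice) (n : ℕ) (f : Walk G n → ℝ) : ℝ :=
  (∑ ω, f ω) / Fintype.card (Walk G n)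

open Classical in
/-- the probability of `A` for a uniformly chosen self-avoiding walk with `n` steps -/
noncomputable def prob (G : Lattice) (n : ℕ) (A : Walk G n → Prop) : ℝ :=
  mean G n (fun ω => if A ω then 1 else 0)

variable {n : ℕ}

/-- The piece of the sequence `x` between the times `s ≤ t` is a bridge: all its members are
between the two extreme ones (it may run upwards or downwards). -/
def Bridge (x : Fin (n + 1) → ℤ) (s t : Fin (n + 1)) : Prop :=
  s ≤ t ∧ ((∀ i, s ≤ i → i ≤ t → x s ≤ x i ∧ x i ≤ x t) ∨
   (∀ i, s ≤ i → i ≤ t → x t ≤ x i ∧ x i ≤ x s))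

/-- The piece of `x` between the times `s` and `t` is a concatenation of `m` bridges (some of them
may have no steps). -/
def CutInto (x : Fin (n + 1) → ℤ) (m : ℕ) (s t : Fin (n + 1)) : Prop :=
  ∃ τ : ℕ → Fin (n + 1), τ 0 = s ∧ τ m = t ∧ ∀ i < m, Bridge x (τ i) (τ (i + 1))

/-- the least `m` such that every piece of `x` is a concatenation of `m` bridges -/
noncomputable def V (x : Fin (n + 1) → ℤ) : ℕ :=
  sInf {m | ∀ s t : Fin (n + 1), s ≤ t → CutInto x m s t}

end Run7.h529.FB
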