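import Pool.Agent.TH508.LT.Fin2

/-!
Chains of folded bridges with a weight `z ≥ 1` for every bridge: the improved two-step Gronwall
argument of `Pool.Agent.TH508.LT.ChnP`, `Pool.Agent.TH508.LT.Fin2` with weights.
-/

set_option linter.unusedSectionVars false

namespace Run7.h529.FB

open H982 hiding PU
open scoped ENNReal
open PowerSeries
open Pool.Agent.W387.S
open Pool.Agent.TH508.LT

variable [L : H982.Lat]

/-- chains with decreasing widths in `[r, r + k)` following `β`, with weight `z` for every bridge -/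
noncomputable def Rz (z : ℝ≥0∞) (r : ℕ) : ℕ → List St → PS
  | 0, _ => 1
  | k + 1, β => Rz z r k β + cst z * fs (fun β' => ii (IsBr (r + k) β' ∧ NCg β β') *
      (xl β' * Rz z r k β'))

variable {z : ℝ≥0∞}

lemma Rz_le_succ (r k : ℕ) (β : List St) : Rz z r k β ≤ Rz z r (k + 1) β := by
  simp only [Rz]; exact le_self_add

lemma Rz_mono (r : ℕ) {k l : ℕ} (h : k ≤ l) (β : List St) : Rz z r k β ≤ Rz z r l β := by
  induction l, h using Nat.le_induction with
  | base => exact le_rfl
  | succ l _ ih => exact ih.trans (Rz_le_succ r l β)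

lemma Rz_le_nil (r k : ℕ) (β : List St) : Rz z r k β ≤ Rz z r k [] := by
  induction k with
  | zero => exact le_rfl
  | succ k ih =>
    simp only [Rz]
    refine add_le_add ih (mul_le_mul' le_rfl (fs_mono fun β' => ?_))
    gcongr
    exact ii_mono fun h' => ⟨h'.1, NCg_nil_left h'.1.isB⟩

/-- splitting of the chain at a given width -/
lemma Rz_split (s m k : ℕ) (β : List St) : Rz z s (m + k) β ≤ Rz z (s + m) k β * Rz z s m [] := by
  induction k generalizing β with
  | zero => simpa [Rz] using Rz_le_nil s m β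
  | succ k ih =>
    change Rz z s (m + k + 1) β ≤ _
    simp only [Rz]
    calc Rz z s (m + k) β + cst z * fs (fun β' => ii (IsBr (s + (m + k)) β' ∧ NCg β β') *
          (xl β' * Rz z s (m + k) β'))
        ≤ Rz z (s + m) k β * Rz z s m [] + cst z * fs (fun β' =>
          ii (IsBr (s + (m + k)) β' ∧ NCg β β') *
          (xl β' * (Rz z (s + m) k β' * Rz z s m []))) := by
          apply add_le_add (ih β)
          refine mul_le_mul' le_rfl (fs_mono fun β' => ?_)
          gcongr
          exact ih β'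
      _ = _ := by
          rw [add_mul, mul_assoc (cst z), fs_mul]
          congr 2
          apply fs_congr
          intro β'
          rw [show s + (m + k) = s + m + k by ring]
          ring

lemma Rz_prod (M : ℕ) : Rz z 1 (2 ^ M - 1) [] ≤ ∏ i ∈ Finset.range M, Rz z (2 ^ i) (2 ^ i) [] := by
  induction M with
  | zero => simp [Rz]
  | succ M ih =>
    have h1 : 2 ^ (M + 1) - 1 = (2 ^ M - 1) + 2 ^ M := by
      have : 1 ≤ 2 ^ M := Nat.one_le_two_pow
      rw [pow_succ]; omega
    have h2 : 1 + (2 ^ M - 1) = 2 ^ M := by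
      have : 1 ≤ 2 ^ M := Nat.one_le_two_pow
      omega
    rw [h1, Finset.prod_range_succ]
    calc Rz z 1 ((2 ^ M - 1) + 2 ^ M) [] ≤
          Rz z (1 + (2 ^ M - 1)) (2 ^ M) [] * Rz z 1 (2 ^ M - 1) [] :=
          Rz_split 1 (2 ^ M - 1) (2 ^ M) []
      _ = Rz z 1 (2 ^ M - 1) [] * Rz z (2 ^ M) (2 ^ M) [] := by rw [h2]; ring
      _ ≤ _ := by gcongr

lemma cst_one_le (hz : 1 ≤ z) : (1 : PS) ≤ cst z := by
  rw [← cst_one]; exact cst_le hz

/-- at a small scale there are few bridges -/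
lemma Rz_small (hz : 1 ≤ z) (r k : ℕ) (β : List St) : Rz z r k β ≤ cst (z ^ k) * Rr r k β := by
  induction k generalizing β with
  | zero => simp [Rz, Rr]
  | succ k ih =>
    simp only [Rz, Rr]
    have e : cst (z ^ (k + 1)) = cst z * cst (z ^ k) := by rw [← cst_mul, pow_succ']
    rw [mul_add]
    refine add_le_add ((ih β).trans ?_) ?_
    · refine mul_le_mul' (cst_le ?_) le_rfl
      exact pow_le_pow_right₀ hz (by omega)
    · rw [e, mul_assoc, mul_fs (cst (z ^ k))]
      refine mul_le_mul' le_rfl (fs_mono fun β' => ?_)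
      calc ii (IsBr (r + k) β' ∧ NCg β β') * (xl β' * Rz z r k β')
          ≤ ii (IsBr (r + k) β' ∧ NCg β β') * (xl β' * (cst (z ^ k) * Rr r k β')) := by
            gcongr
            exact ih β'
        _ = _ := by ring

/-- the same for extendable pairs -/
noncomputable def Rdz (z : ℝ≥0∞) (r : ℕ) : ℕ → List St → PS
  | 0, _ => 1
  | k + 1, β => Rdz z r k β + cst z * fs (fun β' => ii (IsBr (r + k) β' ∧ CC (r + k) β β') *
      (xl β' * Rdz z r k β'))

lemma Rz_le_Rdz (r k : ℕ) (β : List St) (hw : β = [] ∨ r + k ≤ wd β) :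
    Rz z r k β ≤ Rdz z r k β := by
  induction k generalizing β with
  | zero => exact le_rfl
  | succ k ih =>
    simp only [Rz, Rdz]
    refine add_le_add (ih β (hw.imp id (fun h => by omega)))
      (mul_le_mul' le_rfl (fs_mono fun β' => ?_))
    by_cases h : IsBr (r + k) β' ∧ NCg β β'
    · rw [ii_of h, one_mul]
      have h2 : CC (r + k) β β' := by
        rcases hw with hw | hw
        · rw [hw]; exact CC_nil_left _ β'
        · exact CC_of_NCg h.2 (by rw [h.1.wd]) (by rw [h.1.wd]; omega)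
      rw [ii_of (p := IsBr (r + k) β' ∧ CC (r + k) β β') ⟨h.1, h2⟩, one_mul]
      gcongr
      exact ih β' (Or.inr (by rw [h.1.wd]))
    · rw [ii_not h, zero_mul]; exact zero_le

lemma Rdz_le_succ (r k : ℕ) (β : List St) : Rdz z r k β ≤ Rdz z r (k + 1) β := by
  simp only [Rdz]; exact le_self_add

lemma Rdz_suf (r k : ℕ) (u β : List St) (hu : IsB u) : Rdz z r k (u ++ β) ≤ Rdz z r k β := by
  induction k with
  | zero => exact le_rfl
  | succ k ih =>
    simp only [Rdz]
    refine add_le_add ih (mul_le_mul' le_rfl (fs_mono fun β' => ?_))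
    gcongr
    exact ii_mono fun h' => ⟨h'.1, h'.2.suf hu⟩

lemma Rdz_le_one_add (r k : ℕ) (β : List St) : Rdz z r k β ≤
    1 + cst z * fs (fun β' => ii ((IsB β' ∧ r ≤ wd β' ∧ wd β' < r + k) ∧ CC r β β') *
      (xl β' * Rdz z r k β')) := by
  induction k with
  | zero => simp only [Rdz]; exact le_self_add
  | succ k ih =>
    calc Rdz z r (k + 1) β = Rdz z r k β + cst z * fs (fun β' =>
          ii (IsBr (r + k) β' ∧ CC (r + k) β β') * (xl β' * Rdz z r k β')) := rfl
      _ ≤ (1 + cst z * fs (fun β' => ii ((IsB β' ∧ r ≤ wd β' ∧ wd β' < r + k) ∧ CC r β β') *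
            (xl β' * Rdz z r k β'))) + cst z * fs (fun β' => ii (IsBr (r + k) β' ∧ CC r β β') *
          (xl β' * Rdz z r k β')) := by
          refine add_le_add ih (mul_le_mul' le_rfl (fs_mono fun β' => ?_))
          gcongr
          exact ii_mono fun h => ⟨h.1, CC.anti h.2 (by omega)⟩
      _ = 1 + cst z * (fs (fun β' => ii ((IsB β' ∧ r ≤ wd β' ∧ wd β' < r + k) ∧ CC r β β') *
            (xl β' * Rdz z r k β')) + fs (fun β' => ii (IsBr (r + k) β' ∧ CC r β β') *
          (xl β' * Rdz z r k β'))) := by ring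
      _ ≤ _ := by
          refine add_le_add le_rfl (mul_le_mul' le_rfl ?_)
          exact comb_aux r k (CC r β) _ _ (fun β' => by
            gcongr
            exact Rdz_le_succ r k β')

/-- the increment at the width `r + l` -/
noncomputable def Ddz (z : ℝ≥0∞) (r l : ℕ) (β : List St) : PS :=
  fs (fun β' => ii (IsBr (r + l) β' ∧ CC (r + l) β β') * (xl β' * Rdz z r l β'))

/-- unrolled recursion -/
lemma Rdz_eq (r k : ℕ) (β : List St) :
    Rdz z r k β = 1 + cst z * ∑ l ∈ Finset.range k, Ddz z r l β := by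
  induction k with
  | zero => simp [Rdz]
  | succ k ih =>
    rw [Finset.sum_range_succ, mul_add, ← add_assoc, ← ih]
    rfl

lemma Ddz_suf (r l : ℕ) (u β : List St) (hu : IsB u) : Ddz z r l (u ++ β) ≤ Ddz z r l β := by
  unfold Ddz
  apply fs_mono
  intro β'
  gcongr
  exact ii_mono fun h' => ⟨h'.1, h'.2.suf hu⟩

noncomputable def Aaz (z : ℝ≥0∞) (q k : ℕ) : PS :=
  fs (fun X => ii (IsB X ∧ (q ≤ wd X ∧ wd X < 4 * q)) * (xl X * Rdz z (8 * q) k X))

noncomputable def Baz (z : ℝ≥0∞) (q k : ℕ) : PS :=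
  fs (fun p : LL => ii (BI q p ∧ wd p.1 + wd p.2 < 8 * q + k) *
    (xl p.1 * xl p.2 * Rdz z (8 * q) k (p.1 ++ p.2)))

noncomputable def Haz (z : ℝ≥0∞) (q k W : ℕ) : PS :=
  1 + cst z * (kq q * Ks W * Aaz z q k + Baz z q k)

lemma Rdz_le_Nc {q k W : ℕ} (hq : 1 ≤ q) (hW : 16 * q ≤ W) (hk : k ≤ 8 * q) (β : List St) :
    Rdz z (8 * q) k β ≤ Nc (8 * q) W β * Haz z q k W := by
  have h1 := outer_step q k W hW hk β (Rdz z (8 * q) k) (fun u X hu => Rdz_suf (8 * q) k u X hu)
  have h2 := Rdz_le_one_add (z := z) (8 * q) k β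
  set S := fs (fun β' => ii ((IsB β' ∧ 8 * q ≤ wd β' ∧ wd β' < 8 * q + k) ∧ CC (8 * q) β β') *
      (xl β' * Rdz z (8 * q) k β')) with hS
  have h3 : S ≤ kq q * (Nc (8 * q) W β * (Ks W * Aaz z q k)) + Nc (8 * q) W β * Baz z q k := by
    calc S = kq q * (cst ((2 * q : ℕ) : ℝ≥0∞) * S) := by
          rw [← mul_assoc, kq_mul hq, one_mul]
      _ ≤ kq q * (Nc (8 * q) W β * (Ks W * Aaz z q k) +
          cst ((2 * q : ℕ) : ℝ≥0∞) * (Nc (8 * q) W β * Baz z q k)) := mul_le_mul' le_rfl h1
      _ = kq q * (Nc (8 * q) W β * (Ks W * Aaz z q k)) +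
          (kq q * cst ((2 * q : ℕ) : ℝ≥0∞)) * (Nc (8 * q) W β * Baz z q k) := by ring
      _ = _ := by rw [kq_mul hq, one_mul]
  calc Rdz z (8 * q) k β ≤ 1 + cst z * S := h2
    _ ≤ Nc (8 * q) W β * 1 + cst z * (kq q * (Nc (8 * q) W β * (Ks W * Aaz z q k)) +
        Nc (8 * q) W β * Baz z q k) := by
        refine add_le_add ?_ (mul_le_mul' le_rfl h3)
        rw [mul_one]; exact one_le_Nc (8 * q) W β
    _ = _ := by unfold Haz; ring

lemma Ddz_le_Ee {q l W : ℕ} (hq : 1 ≤ q) (hW : 16 * q ≤ W) (hl : l ≤ 8 * q) {Z : List St}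
    (hZ : IsB Z) (hw : wd Z ≤ 8 * q + l) : Ddz z (8 * q) l Z ≤ Ee q l W Z * Haz z q l W := by
  unfold Ddz Ee
  rw [fs_mul]
  apply fs_mono
  intro β'
  by_cases h : IsBr (8 * q + l) β' ∧ CC (8 * q + l) Z β'
  · rw [ii_of h, ii_of (p := IsBr (8 * q + l) β' ∧ PP Z β') ⟨h.1, CC.pp h.2 hZ hw⟩, one_mul,
      one_mul, mul_assoc]
    gcongr
    exact Rdz_le_Nc hq hW hl β'
  · rw [ii_not h, zero_mul]; exact zero_le

lemma Aaz_le {q k W : ℕ} (hq : 1 ≤ q) (hW : 16 * q ≤ W) (hk : k ≤ 8 * q) :
    Aaz z q k ≤ Us W + cst z * ∑ l ∈ Finset.range k, ya q l W * Haz z q l W := by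
  calc Aaz z q k = fs (fun X => ii (IsB X ∧ (q ≤ wd X ∧ wd X < 4 * q)) * xl X +
        cst z * ∑ l ∈ Finset.range k, ii (IsB X ∧ (q ≤ wd X ∧ wd X < 4 * q)) *
          (xl X * Ddz z (8 * q) l X)) := by
        unfold Aaz
        apply fs_congr
        intro X
        rw [Rdz_eq, ← Finset.mul_sum, ← Finset.mul_sum]
        ring
    _ ≤ fs (fun X => ii (IsB X ∧ wd X ≤ W) * xl X + cst z * ∑ l ∈ Finset.range k,
          (ii (IsB X ∧ (q ≤ wd X ∧ wd X < 4 * q)) * (xl X * Ee q l W X)) * Haz z q l W) := by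
        apply fs_mono
        intro X
        refine add_le_add ?_ (mul_le_mul' le_rfl (Finset.sum_le_sum ?_))
        · gcongr
          exact ii_mono fun h => ⟨h.1, by omega⟩
        intro l hl
        rw [Finset.mem_range] at hl
        by_cases h : IsB X ∧ (q ≤ wd X ∧ wd X < 4 * q)
        · rw [ii_of h, one_mul, one_mul, mul_assoc]
          gcongr
          exact Ddz_le_Ee hq hW (by omega) h.1 (by omega)
        · rw [ii_not h, zero_mul]; exact zero_le
    _ = _ := by
        rw [fs_add, ← mul_fs, fs_sum]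
        congr 2
        apply Finset.sum_congr rfl
        intro l _
        rw [← fs_mul]
        rfl

/-- unrolling after a bridge with a wide first piece -/
lemma Rdz_wide {q k W : ℕ} (hq : 1 ≤ q) (hW : 16 * q ≤ W) (hk : k ≤ 8 * q) {p : LL}
    (hp : BI q p) (hz : wd p.1 + wd p.2 < 8 * q + k) :
    Rdz z (8 * q) k (p.1 ++ p.2) ≤ 1 + ∑ l ∈ Finset.range k,
      (ii (wd p.1 + wd p.2 = 8 * q + l) * (Nc (8 * q) W p.2 * Haz z q l W) +
        ii (wd p.1 + wd p.2 ≤ 8 * q + l) * (cst z * (Ee q l W (p.1 ++ p.2) * Haz z q l W))) := by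
  obtain ⟨⟨h1, h2⟩, ⟨h3, h4⟩⟩ := hp
  have hwZ := wd_append h1.1 h3
  have hZ := h1.1.append h3
  obtain ⟨w, hzd⟩ : ∃ w, w = wd p.1 + wd p.2 := ⟨_, rfl⟩
  rw [← hzd] at hz hwZ ⊢
  rw [Rdz_eq, Finset.sum_add_distrib]
  refine add_le_add le_rfl ?_
  have k1 : cst z * ∑ l ∈ Finset.range k, Ddz z (8 * q) l (p.1 ++ p.2) ≤
      ∑ l ∈ Finset.range k, (cst z * (ii (8 * q + l < w) * Ddz z (8 * q) l p.2) +
        ii (w ≤ 8 * q + l) * (cst z * (Ee q l W (p.1 ++ p.2) * Haz z q l W))) := by
    rw [Finset.mul_sum]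
    apply Finset.sum_le_sum
    intro l hl
    rw [Finset.mem_range] at hl
    rcases Nat.lt_or_ge (8 * q + l) w with h | h
    · rw [ii_of h, one_mul]
      exact (mul_le_mul' le_rfl (Ddz_suf _ _ _ _ h1.1)).trans le_self_add
    · rw [ii_of (p := w ≤ 8 * q + l) h, one_mul]
      exact (mul_le_mul' le_rfl (Ddz_le_Ee hq hW (by omega) hZ (by omega))).trans le_add_self
  refine k1.trans ?_
  rw [Finset.sum_add_distrib]
  refine add_le_add ?_ le_rfl
  rcases Nat.lt_or_ge (8 * q) w with h | h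
  · obtain ⟨m, rfl⟩ := Nat.exists_eq_add_of_le h.le
    have hm : m < k := by omega
    have k2 : ∑ l ∈ Finset.range k, cst z * (ii (8 * q + l < 8 * q + m) * Ddz z (8 * q) l p.2) ≤
        Rdz z (8 * q) m p.2 := by
      rw [Rdz_eq, ← Finset.mul_sum]
      calc cst z * ∑ l ∈ Finset.range k, ii (8 * q + l < 8 * q + m) * Ddz z (8 * q) l p.2
          = cst z * ∑ l ∈ Finset.range m, ii (8 * q + l < 8 * q + m) * Ddz z (8 * q) l p.2 := by
            congr 1
            symm
            apply Finset.sum_subset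
            · intro l hl
              rw [Finset.mem_range] at hl ⊢
              omega
            · intro l _ hl
              rw [Finset.mem_range] at hl
              rw [ii_not (by omega), zero_mul]
        _ ≤ cst z * ∑ l ∈ Finset.range m, Ddz z (8 * q) l p.2 := by
            refine mul_le_mul' le_rfl (Finset.sum_le_sum ?_)
            intro l _
            calc _ ≤ 1 * Ddz z (8 * q) l p.2 := by gcongr; exact ii_le_one _
              _ = _ := one_mul _
        _ ≤ _ := le_add_self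
    refine k2.trans ((Rdz_le_Nc hq hW (by omega) p.2).trans ?_)
    calc Nc (8 * q) W p.2 * Haz z q m W
        = ii (8 * q + m = 8 * q + m) * (Nc (8 * q) W p.2 * Haz z q m W) := by
          rw [ii_of rfl, one_mul]
      _ ≤ _ := Finset.single_le_sum
          (f := fun l => ii (8 * q + m = 8 * q + l) * (Nc (8 * q) W p.2 * Haz z q l W))
          (fun _ _ => zero_le) (Finset.mem_range.mpr hm)
  · refine le_trans (le_of_eq ?_) zero_le
    apply Finset.sum_eq_zero
    intro l _
    rw [ii_not (by omega), zero_mul, mul_zero]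

lemma Baz_le {q k W : ℕ} (hq : 1 ≤ q) (hW : 16 * q ≤ W) (hk : k ≤ 8 * q) :
    Baz z q k ≤ LU q + ∑ l ∈ Finset.range k, (yt q l W + cst z * yb q l W) * Haz z q l W := by
  calc Baz z q k ≤ fs (fun p : LL => ii (BI q p ∧ wd p.1 + wd p.2 < 16 * q) * (xl p.1 * xl p.2) +
        ∑ l ∈ Finset.range k, ((ii (BI q p ∧ wd p.1 + wd p.2 = 8 * q + l) *
          (xl p.1 * xl p.2 * Nc (8 * q) W p.2)) * Haz z q l W +
          (ii (BI q p ∧ wd p.1 + wd p.2 ≤ 8 * q + l) *
          (xl p.1 * xl p.2 * Ee q l W (p.1 ++ p.2))) * (cst z * Haz z q l W))) := by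
        unfold Baz
        apply fs_mono
        intro p
        by_cases h : BI q p ∧ wd p.1 + wd p.2 < 8 * q + k
        · rw [ii_of h, one_mul]
          refine (mul_le_mul' le_rfl (Rdz_wide hq hW hk h.1 h.2)).trans ?_
          rw [mul_add, mul_one, Finset.mul_sum]
          refine add_le_add ?_ (Finset.sum_le_sum ?_)
          · rw [ii_of (p := BI q p ∧ wd p.1 + wd p.2 < 16 * q) ⟨h.1, by omega⟩, one_mul]
          · intro l _
            rw [ii_and, ii_and, ii_of h.1, one_mul, one_mul]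
            apply le_of_eq
            ring
        · rw [ii_not h, zero_mul]; exact zero_le
    _ = _ := by
        rw [fs_add, fs_sum]
        congr 1
        apply Finset.sum_congr rfl
        intro l _
        rw [fs_add, ← fs_mul, ← fs_mul, ← mul_assoc, ← add_mul]
        congr 2
        rw [mul_comm]
        rfl

lemma Haz_le (hz : 1 ≤ z) {q k W : ℕ} (hq : 1 ≤ q) (hW : 16 * q ≤ W) (hk : k ≤ 8 * q) :
    Haz z q k W ≤ (1 + cst z * (kq q * Ks W * Us W + LU q)) +
      ∑ l ∈ Finset.range k, (cst (z ^ 2) * aa q l W) * Haz z q l W := by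
  have h1 := cst_one_le hz
  have e : cst (z ^ 2) = cst z * cst z := by rw [← cst_mul, pow_two]
  calc Haz z q k W ≤ 1 + cst z * (kq q * Ks W * (Us W + cst z * ∑ l ∈ Finset.range k,
          ya q l W * Haz z q l W) +
        (LU q + ∑ l ∈ Finset.range k, (yt q l W + cst z * yb q l W) * Haz z q l W)) := by
        unfold Haz
        refine add_le_add le_rfl (mul_le_mul' le_rfl (add_le_add (mul_le_mul' le_rfl ?_) ?_))
        · exact Aaz_le hq hW hk
        · exact Baz_le hq hW hk
    _ = (1 + cst z * (kq q * Ks W * Us W + LU q)) + (∑ l ∈ Finset.range k,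
          (cst z * (kq q * Ks W * (cst z * (ya q l W * Haz z q l W))) +
          cst z * ((yt q l W + cst z * yb q l W) * Haz z q l W))) := by
        rw [Finset.sum_add_distrib, ← Finset.mul_sum, ← Finset.mul_sum, ← Finset.mul_sum,
          ← Finset.mul_sum]
        ring
    _ ≤ (1 + cst z * (kq q * Ks W * Us W + LU q)) + (∑ l ∈ Finset.range k,
          (cst z * (kq q * Ks W * (cst z * (ya q l W * Haz z q l W))) +
          cst z * ((cst z * yt q l W + cst z * yb q l W) * Haz z q l W))) := by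
        refine add_le_add le_rfl (Finset.sum_le_sum fun l _ => add_le_add le_rfl ?_)
        refine mul_le_mul' le_rfl (mul_le_mul' (add_le_add ?_ le_rfl) le_rfl)
        calc yt q l W = 1 * yt q l W := (one_mul _).symm
          _ ≤ cst z * yt q l W := mul_le_mul' h1 le_rfl
    _ = _ := by
        congr 1
        apply Finset.sum_congr rfl
        intro l _
        unfold aa
        rw [e]; ring

/-- the truncated bound at one dyadic scale -/
theorem scale_bound_dz {N q : ℕ} (hq : 1 ≤ q) {c lam : ℝ} (hc : 0 ≤ c) (hl : 1 ≤ lam)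
    (hE : LeT N (Ec (8 * q) (16 * q)) (cst (ENNReal.ofReal c) * Us (128 * q))) :
    NmT N (ENNReal.ofReal ((16 * q + 1) * (385 * lam) * Real.exp (15000000 * (lam ^ 2 * c))))
      (Rdz (ENNReal.ofReal lam) (8 * q) (8 * q) []) := by
  have hz : 1 ≤ ENNReal.ofReal lam := by
    rw [← ENNReal.ofReal_one]; exact ENNReal.ofReal_le_ofReal hl
  have nx := Nm_xU hq
  have nA : NmT N (ENNReal.ofReal (15000000 * (lam ^ 2 * c)))
      (∑ l ∈ Finset.range (8 * q), cst (ENNReal.ofReal lam ^ 2) * aa q l (16 * q)) := by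
    have h1 := sum_aa_le hq (le_refl (8 * q))
    have h2 := hE.mul_left (900 * (xq q * (xq q * Us (128 * q))) + 202 * xq q)
    have e : (900 * (xq q * (xq q * Us (128 * q))) + 202 * xq q) *
        (cst (ENNReal.ofReal c) * Us (128 * q)) = cst (ENNReal.ofReal c) *
        (900 * ((xq q * Us (128 * q)) * (xq q * Us (128 * q))) +
          202 * (xq q * Us (128 * q))) := by ring
    rw [e] at h2
    have nA' : NmT N (ENNReal.ofReal (15000000 * c))
        (∑ l ∈ Finset.range (8 * q), aa q l (16 * q)) := by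
      refine NmT.mono' (NmT.weaken (Nm.toT ((Nm_cst (ENNReal.ofReal c)).mul
        (((Nm_num 900).mul (nx.mul nx)).add ((Nm_num 202).mul nx))) N) ?_)
        ((LeT.of_le h1).trans h2)
      have e2 : (OfNat.ofNat 900 * (128 * 128) + OfNat.ofNat 202 * 128 : ℝ≥0∞) =
          ENNReal.ofReal 14771456 := by
        have : ENNReal.ofReal 14771456 = (14771456 : ℝ≥0∞) := by norm_num
        rw [this]
        norm_num
      rw [e2, ← ENNReal.ofReal_mul hc]
      apply ENNReal.ofReal_le_ofReal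
      nlinarith
    rw [← Finset.mul_sum]
    refine ((NmT_cst N (ENNReal.ofReal lam ^ 2)).mul nA').weaken ?_
    rw [← ENNReal.ofReal_pow (by linarith), ← ENNReal.ofReal_mul (by positivity)]
    apply ENNReal.ofReal_le_ofReal
    apply le_of_eq; ring
  have nP : NmT N (ENNReal.ofReal (Real.exp (15000000 * (lam ^ 2 * c))))
      (∏ l ∈ Finset.range (8 * q), (1 + cst (ENNReal.ofReal lam ^ 2) * aa q l (16 * q))) :=
    (NmT_eb (by positivity) nA (8 * q)).mono (prod_le_eb _ (8 * q))
  have h1 : Rdz (ENNReal.ofReal lam) (8 * q) (8 * q) [] ≤ Us (16 * q) *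
      ((1 + cst (ENNReal.ofReal lam) * (xq q * Us (128 * q) + 2 * (xq q * Us (128 * q)))) *
      ∏ l ∈ Finset.range (8 * q), (1 + cst (ENNReal.ofReal lam ^ 2) * aa q l (16 * q))) := by
    refine (Rdz_le_Nc hq le_rfl le_rfl []).trans ?_
    refine mul_le_mul' (Nc_nil_le _ _) ?_
    refine (gronwall (fun k => Haz (ENNReal.ofReal lam) q k (16 * q))
        (fun l => cst (ENNReal.ofReal lam ^ 2) * aa q l (16 * q)) _ (8 * q)
        (fun k hk => Haz_le hz hq le_rfl hk) (8 * q) le_rfl).trans ?_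
    refine mul_le_mul' (add_le_add le_rfl (mul_le_mul' le_rfl (add_le_add ?_ ?_))) le_rfl
    · exact mul_le_mul' (kK_le q) (Us_mono (by omega))
    · refine (LU_le q).trans ?_
      rw [← mul_assoc]
      exact mul_le_mul' (Lam_le_xq hq) (Us_le128 q)
  refine NmT.mono ?_ h1
  refine (((Nm_U (16 * q)).toT N).mul (((Nm_one.add ((Nm_cst (ENNReal.ofReal lam)).mul
    (nx.add ((Nm_num 2).mul nx)))).toT N).mul nP)).weaken ?_
  have e1 : ((16 * q + 1 : ℕ) : ℝ≥0∞) = ENNReal.ofReal (16 * q + 1) := by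
    rw [← ENNReal.ofReal_natCast]; congr 1; push_cast; ring
  have e2 : (128 + OfNat.ofNat 2 * 128 : ℝ≥0∞) = ENNReal.ofReal 384 := by
    have : ENNReal.ofReal 384 = (384 : ℝ≥0∞) := by norm_num
    rw [this]
    norm_num
  have e3 : (1 : ℝ≥0∞) + ENNReal.ofReal lam * (128 + OfNat.ofNat 2 * 128) ≤
      ENNReal.ofReal (385 * lam) := by
    rw [e2, ← ENNReal.ofReal_one, ← ENNReal.ofReal_mul (by linarith),
      ← ENNReal.ofReal_add (by norm_num) (by positivity)]
    apply ENNReal.ofReal_le_ofReal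
    linarith
  calc _ ≤ ((16 * q + 1 : ℕ) : ℝ≥0∞) * (ENNReal.ofReal (385 * lam) *
        ENNReal.ofReal (Real.exp (15000000 * (lam ^ 2 * c)))) := by gcongr
    _ = _ := by
      rw [e1, ← ENNReal.ofReal_mul (by positivity), ← ENNReal.ofReal_mul (by positivity)]
      congr 1
      ring

end Run7.h529.FB
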