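import Pool.Agent.Run7.h529.FB.ZHalf

/-!
Cutting self-avoiding words into weak bridges; the weighted sum over all self-avoiding words.
-/

set_option linter.unusedSectionVars false

namespace Run7.h529.FB

open H982 hiding PU
open scoped ENNReal
open PowerSeries

/-- weak bridges, to the right or to the left -/
def WB (u : List St) : Prop :=
  (∀ v, v <+: u → 0 ≤ dx v ∧ dx v ≤ dx u) ∨ (∀ v, v <+: u → dx u ≤ dx v ∧ dx v ≤ 0)

/-- `ω` is a concatenation of `m` weak bridges (possibly empty ones) -/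
def Cut : ℕ → List St → Prop
  | 0, ω => ω = []
  | m + 1, ω => ∃ u v, ω = u ++ v ∧ WB u ∧ Cut m v

lemma WB_nil : WB [] := Or.inl fun v hv => by
  have : v = [] := by simpa using hv
  subst this; simp

lemma WB_single (s : St) : WB [s] := by
  have key : ∀ v, v <+: [s] → v = [] ∨ v = [s] := by
    intro v hv
    rcases List.prefix_cons_iff.mp hv with h | ⟨t, rfl, h⟩
    · exact Or.inl h
    · have : t = [] := by simpa using h
      subst this; exact Or.inr rfl
  rcases le_total 0 s.x with h | h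
  · left
    intro v hv
    rcases key v hv with rfl | rfl
    · simpa using h
    · simpa using h
  · right
    intro v hv
    rcases key v hv with rfl | rfl
    · simpa using h
    · simpa using h

lemma WB.sg {u : List St} (h : WB u) : WB (sg u) := by
  have key : ∀ v, v <+: H982.sg u → H982.sg v <+: u := by
    intro v hv
    have := hv.map St.sg
    change H982.sg v <+: H982.sg (H982.sg u) at this
    rwa [sg_sg] at this
  rcases h with h | h
  · right
    intro v hv
    have := h _ (key v hv)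
    rw [dx_sg] at this
    rw [dx_sg]
    omega
  · left
    intro v hv
    have := h _ (key v hv)
    rw [dx_sg] at this
    rw [dx_sg]
    omega

lemma WB.reverse {u : List St} (h : WB u) : WB u.reverse := by
  have key : ∀ v, v <+: u.reverse → ∃ w, w <+: u ∧ dx w + dx v = dx u := by
    intro v hv
    have hs : v.reverse <:+ u := by
      rw [← List.reverse_prefix, List.reverse_reverse]; exact hv
    obtain ⟨w, hw⟩ := hs
    refine ⟨w, ⟨_, hw⟩, ?_⟩
    rw [← hw]; simp
  rcases h with h | h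
  · left
    intro v hv
    obtain ⟨w, h1, h2⟩ := key v hv
    have := h w h1
    rw [dx_reverse]
    omega
  · right
    intro v hv
    obtain ⟨w, h1, h2⟩ := key v hv
    have := h w h1
    rw [dx_reverse]
    omega

lemma Cut.succ {m : ℕ} {ω : List St} (h : Cut m ω) : Cut (m + 1) ω := ⟨[], ω, rfl, WB_nil, h⟩

lemma Cut.mono {m m' : ℕ} {ω : List St} (h : Cut m ω) (hm : m ≤ m') : Cut m' ω := by
  induction m', hm using Nat.le_induction with
  | base => exact h
  | succ m' _ ih => exact ih.succ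

lemma Cut.append {a b : ℕ} {u v : List St} (hu : Cut a u) (hv : Cut b v) :
    Cut (a + b) (u ++ v) := by
  induction a generalizing u with
  | zero =>
    simp only [Cut] at hu
    subst hu
    simpa using hv
  | succ a ih =>
    obtain ⟨u1, u2, rfl, h1, h2⟩ := hu
    rw [Nat.add_right_comm]
    exact ⟨u1, u2 ++ v, by simp, h1, ih h2⟩

lemma cut_one {u : List St} (h : WB u) : Cut 1 u := ⟨u, [], by simp, h, rfl⟩

lemma cut_length (ω : List St) : Cut ω.length ω := by
  induction ω with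
  | nil => rfl
  | cons s ω ih => exact ⟨[s], ω, rfl, WB_single s, ih⟩

lemma Cut.sg {m : ℕ} {ω : List St} (h : Cut m ω) : Cut m (sg ω) := by
  induction m generalizing ω with
  | zero =>
    simp only [Cut] at h
    subst h
    rfl
  | succ m ih =>
    obtain ⟨u, v, rfl, h1, h2⟩ := h
    exact ⟨H982.sg u, H982.sg v, by simp, h1.sg, ih h2⟩

lemma Cut.reverse {m : ℕ} {ω : List St} (h : Cut m ω) : Cut m ω.reverse := by
  induction m generalizing ω with
  | zero =>
    simp only [Cut] at h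
    subst h
    rfl
  | succ m ih =>
    obtain ⟨u, v, rfl, h1, h2⟩ := h
    rw [List.reverse_append]
    exact (ih h2).append (cut_one h1.reverse)

/-- the least number of weak bridges -/
noncomputable def nu (ω : List St) : ℕ := sInf {m | Cut m ω}

lemma nu_le {m : ℕ} {ω : List St} (h : Cut m ω) : nu ω ≤ m := Nat.sInf_le h

lemma nu_spec (ω : List St) : Cut (nu ω) ω :=
  Nat.sInf_mem (s := {m | Cut m ω}) ⟨_, cut_length ω⟩

/-- cutting half-plane words, the first piece being a bridge in the strict sense -/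
def HC (m : ℕ) (ω : List St) : Prop :=
  ∃ m' β ρ, m = m' + 1 ∧ ω = β ++ ρ ∧ HP β ∧ WB β ∧ β ≠ [] ∧ Cut m' ρ

open Classical in
/-- the corresponding least number -/
noncomputable def lh (ω : List St) : ℕ := if ω = [] then 0 else sInf {m | HC m ω}

lemma HC_exists {ω : List St} (h : HP ω) (h0 : ω ≠ []) : HC (ω.length) ω := by
  obtain ⟨s, v, rfl⟩ := List.exists_cons_of_ne_nil h0
  refine ⟨v.length, [s], v, by simp, rfl, fun m hm h0 => h m (hm.trans ⟨v, rfl⟩) h0,
    WB_single s, by simp, cut_length v⟩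

lemma lh_spec {ω : List St} (h : HP ω) (h0 : ω ≠ []) : HC (lh ω) ω := by
  unfold lh
  rw [if_neg h0]
  exact Nat.sInf_mem (s := {m | HC m ω}) ⟨_, HC_exists h h0⟩

variable [L : H982.Lat]

lemma IsBr.WB {a : ℕ} {β : List St} (h : IsBr a β) : WB β := by
  left
  intro v hv
  refine ⟨(h.hp.prew hv).dx_nonneg, ?_⟩
  rw [h.dx]
  exact h.le hv

lemma HPc_cut (α : List ℕ) : ∀ {β ω : List St}, HPc α β ω →
    ∃ ρ, ω = β ++ ρ ∧ Cut α.length ρ := by
  induction α with
  | nil =>
    intro β ω h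
    simp only [HPc] at h
    exact ⟨[], by simp [h], rfl⟩
  | cons A' α ih =>
    intro β ω h
    obtain ⟨β', ω', h1, h2, h3, h4⟩ := h
    obtain ⟨ρ', h5, h6⟩ := ih h4
    refine ⟨H982.sg ω', h1, ?_⟩
    have : Cut (α.length + 1) ω' := ⟨β', ρ', h5, IsBr.WB h2, h6⟩
    exact this.sg

lemma Wok_nu : Wok nu := by
  intro ω A α β hA hβ h _
  obtain ⟨ρ, h1, h2⟩ := HPc_cut α h
  exact nu_le ⟨β, ρ, h1, IsBr.WB hβ, h2⟩

lemma Wok_lh : Wok lh := by
  intro ω A α β hA hβ h _
  obtain ⟨ρ, h1, h2⟩ := HPc_cut α h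
  have h0 : ω ≠ [] := by
    rw [h1]
    have := hβ.ne_nil hA
    simp [this]
  unfold lh
  rw [if_neg h0]
  exact Nat.sInf_le ⟨α.length, β, ρ, rfl, h1, hβ.hp, IsBr.WB hβ, hβ.ne_nil hA, h2⟩

lemma nu_nil : nu [] = 0 := Nat.le_zero.mp (nu_le rfl)

lemma lh_nil : lh [] = 0 := by simp [lh]

/-- removing the additional first step -/
lemma cut_of_cons {γ : List St} (h : HP (St.E :: γ)) : Cut (lh (St.E :: γ)) γ := by
  obtain ⟨m', β, ρ, h1, h2, h3, h4, h5, h6⟩ := lh_spec h (by simp)
  rw [h1]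
  obtain ⟨s, b, rfl⟩ := List.exists_cons_of_ne_nil h5
  rw [List.cons_append, List.cons.injEq] at h2
  obtain ⟨rfl, h2⟩ := h2
  refine ⟨b, ρ, h2, ?_, h6⟩
  left
  intro v hv
  have hp : St.E :: v <+: St.E :: b := by
    rw [List.cons_prefix_cons]; exact ⟨rfl, hv⟩
  have h7 := h3 _ hp (by simp)
  have hb := h3 _ (List.prefix_refl _) (by simp)
  rw [dx_cons, St.x_E] at h7 hb
  rcases h4 with h4 | h4
  · have h8 := h4 _ hp
    rw [dx_cons, dx_cons, St.x_E] at h8
    omega
  · have h8 := h4 _ hp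
    rw [dx_cons, dx_cons, St.x_E] at h8
    omega

/-- weighted sum over the self-avoiding words of length `N` -/
noncomputable def Tz (z : ℝ≥0∞) (N : ℕ) : ℝ≥0∞ :=
  ∑' ω : List St, ind (Saw ω ∧ ω.length = N) * z ^ nu ω

theorem Tz_le {z : ℝ≥0∞} (hz : 1 ≤ z) (N : ℕ) :
    Tz z N ≤ ∑ k ∈ Finset.range (N + 1), Hz z lh (k + 1) * Hz z nu (N - k) := by
  have h1 : Tz z N ≤ ∑' q : ℕ × LL, ind ((q.1 < N + 1) ∧ ((Saw q.2.1 ∧ HP q.2.1 ∧
      q.2.1.length = q.1 + 1) ∧ (Saw q.2.2 ∧ HP q.2.2 ∧ q.2.2.length = N - q.1))) *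
        (z ^ lh q.2.1 * z ^ nu q.2.2) := by
    unfold Tz
    refine tsum_cover _ _ _ _ (fun q : ℕ × LL => sg q.2.1.tail.reverse ++ q.2.2) ?_
    rintro ω ⟨hS, hN⟩
    obtain ⟨β, ρ, h2, h3, h4⟩ := exists_last_max (sg ω)
    have hω : ω = sg β ++ sg ρ := by
      have := congrArg sg h2
      simpa using this
    have hSβ : Saw β := by
      have : Saw (sg β) := hS.subw ⟨[], sg ρ, by simp [hω]⟩
      simpa using this.sg
    have hSρ : Saw (sg ρ) := hS.subw ⟨sg β, [], by simp [hω]⟩
    have hlen : β.length + ρ.length = N := by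
      rw [← hN, hω]; simp
    have key : ∀ u, u <+: St.E :: β.reverse → u ≠ [] → 0 < dx u := by
      intro u hu hu0
      rcases List.prefix_cons_iff.mp hu with h | ⟨v, rfl, hv⟩
      · exact absurd h hu0
      · have hs : v.reverse <:+ β := by
          rw [← List.reverse_prefix, List.reverse_reverse]; exact hv
        obtain ⟨s, hs⟩ := hs
        have h5 := h3 s ⟨_, hs⟩
        rw [← hs] at h5
        simp at h5 ⊢
        omega
    refine ⟨(β.length, (St.E :: β.reverse, sg ρ)), ⟨by simp only; omega,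
      ⟨⟨?_, ok_cons.mpr ⟨St.ok_E, ok_reverse.mpr hSβ.2⟩⟩, key, by simp⟩,
      hSρ, ?_, ?_⟩, ?_, ?_⟩
    · intro m hm h5 h6
      rcases List.infix_cons_iff.mp hm with h7 | h7
      · by_contra hne
        have := key m h7 hne
        omega
      · exact hSβ.reverse.1 m h7 h5 h6
    · intro v hv hv0
      have h5 : sg v <+: ρ := by
        have := hv.map St.sg
        change H982.sg v <+: H982.sg (H982.sg ρ) at this
        rwa [sg_sg] at this
      have := h4 _ h5 (by simpa using hv0)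
      simp at this; omega
    · simp; omega
    · simp [hω]
    · simp only
      rw [← pow_add]
      apply pow_le_pow_right₀ hz
      apply nu_le
      rw [hω]
      refine Cut.append ?_ (nu_spec _)
      have h5 := (cut_of_cons key).reverse
      rw [List.reverse_reverse] at h5
      exact h5.sg
  refine h1.trans (le_of_eq ?_)
  rw [ENNReal.tsum_prod', tsum_eq_sum (s := Finset.range (N + 1))]
  · apply Finset.sum_congr rfl
    intro k hk
    rw [Finset.mem_range] at hk
    unfold Hz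
    rw [tsum_mul_tsum' (fun u => ind (Saw u ∧ HP u ∧ u.length = k + 1) * z ^ lh u)
      (fun u => ind (Saw u ∧ HP u ∧ u.length = N - k) * z ^ nu u)]
    congr 1; ext p
    simp only
    rw [ind_and, ind_of hk, one_mul, ind_and (_ ∧ _ ∧ _) (_ ∧ _ ∧ _)]
    ring
  · intro k hk
    rw [Finset.mem_range] at hk
    have : ∀ p : LL, ind ((k < N + 1) ∧ ((Saw p.1 ∧ HP p.1 ∧
      p.1.length = k + 1) ∧ (Saw p.2 ∧ HP p.2 ∧ p.2.length = N - k))) *
      (z ^ lh p.1 * z ^ nu p.2) = 0 := by
      intro p; rw [ind_not (fun h => hk h.1), zero_mul]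
    simp_rw [this]; simp

/-- **All self-avoiding words**: the weighted sum is at most `μ ^ N exp (K λ² (1+log (N+1))²)`. -/
theorem Tz_bound : ∃ K : ℝ, 0 ≤ K ∧ ∀ lam : ℝ, 1 ≤ lam → ∀ N : ℕ,
    Tz (ENNReal.ofReal lam) N ≤
      ENNReal.ofReal (mu ^ N * Real.exp (K * (lam ^ 2 * (1 + Real.log ((N : ℝ) + 1)) ^ 2))) := by
  obtain ⟨K₀, hK₀, h0⟩ := Hz_bound
  have hlmu := Real.log_nonneg one_le_mu
  refine ⟨8 * K₀ + 1 + Real.log mu, by positivity, fun lam hl N => ?_⟩
  have hz : 1 ≤ ENNReal.ofReal lam := by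
    rw [← ENNReal.ofReal_one]; exact ENNReal.ofReal_le_ofReal hl
  have hlam21 : 1 ≤ lam ^ 2 := by nlinarith
  set l : ℝ := 1 + Real.log ((N : ℝ) + 1) with hldef
  have hl1 : 1 ≤ l := ell_ge_one N
  have hN0 : (0 : ℝ) ≤ N := Nat.cast_nonneg N
  set E : ℝ := lam ^ 2 * (1 + Real.log ((N : ℝ) + 1 + 1)) ^ 2 with hE
  have hlog2 : Real.log 2 ≤ 1 := by
    have := Real.log_two_lt_d9; linarith
  have hE1 : 1 + Real.log ((N : ℝ) + 1 + 1) ≤ 2 * l := by
    have h1 : Real.log ((N : ℝ) + 1 + 1) ≤ Real.log (2 * ((N : ℝ) + 1)) :=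
      Real.log_le_log (by linarith) (by linarith)
    rw [Real.log_mul (by norm_num) (by linarith)] at h1
    have : 0 ≤ Real.log ((N : ℝ) + 1) := Real.log_nonneg (by linarith)
    rw [hldef]
    linarith
  have hE0 : 0 ≤ Real.log ((N : ℝ) + 1 + 1) := Real.log_nonneg (by linarith)
  have hE2 : E ≤ 4 * (lam ^ 2 * l ^ 2) := by
    rw [hE]
    calc lam ^ 2 * (1 + Real.log ((N : ℝ) + 1 + 1)) ^ 2 ≤ lam ^ 2 * (2 * l) ^ 2 := by gcongr
      _ = _ := by ring
  have e1 : ∀ (w : List St → ℕ), Wok w → w [] = 0 → ∀ j : ℕ, j ≤ N + 1 →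
      Hz (ENNReal.ofReal lam) w j ≤ ENNReal.ofReal (Real.exp (K₀ * E)) * bn j := by
    intro w hw hw0 j hj
    refine (h0 w hw hw0 lam hl j).trans ?_
    have hj' : (j : ℝ) ≤ N + 1 := by exact_mod_cast hj
    have h0 : (0 : ℝ) ≤ j := Nat.cast_nonneg j
    have h2 : 0 ≤ Real.log ((j : ℝ) + 1) := Real.log_nonneg (by linarith)
    have h3 : Real.log ((j : ℝ) + 1) ≤ Real.log ((N : ℝ) + 1 + 1) :=
      Real.log_le_log (by linarith) (by linarith)
    rw [hE]
    gcongr
  have h1 : Tz (ENNReal.ofReal lam) N ≤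
      ENNReal.ofReal ((N + 1) * Real.exp (2 * K₀ * E) * br' (N + 1)) := by
    calc Tz (ENNReal.ofReal lam) N ≤ ∑ k ∈ Finset.range (N + 1),
          Hz (ENNReal.ofReal lam) lh (k + 1) * Hz (ENNReal.ofReal lam) nu (N - k) := Tz_le hz N
      _ ≤ ∑ k ∈ Finset.range (N + 1),
          ENNReal.ofReal (Real.exp (2 * K₀ * E) * br' (N + 1)) := by
        apply Finset.sum_le_sum
        intro k hk
        rw [Finset.mem_range] at hk
        calc Hz (ENNReal.ofReal lam) lh (k + 1) * Hz (ENNReal.ofReal lam) nu (N - k) ≤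
              (ENNReal.ofReal (Real.exp (K₀ * E)) * bn (k + 1)) *
              (ENNReal.ofReal (Real.exp (K₀ * E)) * bn (N - k)) :=
              mul_le_mul' (e1 lh Wok_lh lh_nil _ (by omega)) (e1 nu Wok_nu nu_nil _ (by omega))
          _ = ENNReal.ofReal (Real.exp (2 * K₀ * E)) *
              (bn (k + 1) * bn (N - k)) := by
              have : Real.exp (2 * K₀ * E) = Real.exp (K₀ * E) * Real.exp (K₀ * E) := by
                rw [← Real.exp_add]; congr 1; ring
              rw [this, ENNReal.ofReal_mul (Real.exp_pos _).le]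
              ring
          _ ≤ ENNReal.ofReal (Real.exp (2 * K₀ * E)) * bn (N + 1) := by
              gcongr
              have := bn_mul_le (k + 1) (N - k)
              have e2 : k + 1 + (N - k) = N + 1 := by omega
              rwa [e2] at this
          _ = _ := by rw [ENNReal.ofReal_mul (Real.exp_pos _).le, ofReal_br']
      _ = _ := by
        rw [Finset.sum_const, Finset.card_range, nsmul_eq_mul]
        have e3 : ((N + 1 : ℕ) : ℝ≥0∞) = ENNReal.ofReal ((N : ℝ) + 1) := by
          rw [← Nat.cast_succ, ENNReal.ofReal_natCast]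
        rw [e3, ← ENNReal.ofReal_mul (by positivity)]
        congr 1
        ring
  refine h1.trans (ENNReal.ofReal_le_ofReal ?_)
  have hmu := mu_pos
  have h2 : (N : ℝ) + 1 ≤ Real.exp (lam ^ 2 * l ^ 2) := by
    calc (N : ℝ) + 1 = Real.exp (Real.log ((N : ℝ) + 1)) := (Real.exp_log (by linarith)).symm
      _ ≤ _ := Real.exp_le_exp.mpr (by rw [hldef] at hl1 ⊢; nlinarith)
  have h3 : mu ≤ Real.exp (Real.log mu * (lam ^ 2 * l ^ 2)) := by
    calc mu = Real.exp (Real.log mu) := (Real.exp_log mu_pos).symm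
      _ ≤ _ := by
        apply Real.exp_le_exp.mpr
        have : 1 ≤ lam ^ 2 * l ^ 2 := by nlinarith
        nlinarith
  calc ((N : ℝ) + 1) * Real.exp (2 * K₀ * E) * br' (N + 1)
      ≤ Real.exp (lam ^ 2 * l ^ 2) * Real.exp (2 * K₀ * (4 * (lam ^ 2 * l ^ 2))) *
        mu ^ (N + 1) := by
        have := one_le_br' (N + 1)
        gcongr
        exact br'_le (N + 1)
    _ = mu ^ N * (Real.exp (lam ^ 2 * l ^ 2) * Real.exp (2 * K₀ * (4 * (lam ^ 2 * l ^ 2))) * mu) := by
        ring
    _ ≤ mu ^ N * (Real.exp (lam ^ 2 * l ^ 2) * Real.exp (2 * K₀ * (4 * (lam ^ 2 * l ^ 2))) *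
        Real.exp (Real.log mu * (lam ^ 2 * l ^ 2))) := by gcongr
    _ = _ := by
        rw [← Real.exp_add, ← Real.exp_add]
        congr 2; ring

end Run7.h529.FB
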