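import Pool.Agent.Run7.h529.FB.ZChn

/-!
All dyadic scales; half-plane words weighted by the number of their legs.
-/

set_option linter.unusedSectionVars false

namespace Run7.h529.FB

open H982 hiding PU
open scoped ENNReal
open PowerSeries
open Pool.Agent.W387.S
open Pool.Agent.TH508.LT

variable [L : H982.Lat]

/-- the truncated bound at the scale `2 ^ i` -/
lemma scale_bound_iz {N : ℕ} {c lam : ℝ} (hc : 0 ≤ c) (hl : 1 ≤ lam) (i : ℕ) (hi : 2 ^ i ≤ N)
    (hN : 2 ≤ N)
    (hE : ∀ r, 1 ≤ r → r ≤ N → LeT N (Ec r (2 * r)) (cst (ENNReal.ofReal c) * Us (16 * r))) :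
    NmT N (ENNReal.ofReal (Real.exp ((12 * Real.log N + 15000000 * (lam ^ 2 * c) + 4 * lam) +
      (if i < 3 then 1024 * c ^ 2 else 0)))) (Rz (ENNReal.ofReal lam) (2 ^ i) (2 ^ i) []) := by
  have hz : 1 ≤ ENNReal.ofReal lam := by
    rw [← ENNReal.ofReal_one]; exact ENNReal.ofReal_le_ofReal hl
  have hp : 1 ≤ 2 ^ i := Nat.one_le_two_pow
  have hNr : (2 : ℝ) ≤ N := by exact_mod_cast hN
  have hN0 : (0 : ℝ) < N := by linarith
  have hiN : ((2 : ℝ) ^ i) ≤ N := by exact_mod_cast hi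
  have hlam : lam ≤ Real.exp lam := by
    have := Real.add_one_le_exp lam
    linarith
  have hlam2 : (1 : ℝ) ≤ lam ^ 2 := one_le_pow₀ hl
  have hcl : c ≤ lam ^ 2 * c := by nlinarith
  by_cases h3 : i < 3
  · have h1 := scale_bound_i hc i hi hN hE
    rw [if_pos h3] at h1 ⊢
    refine NmT.mono ?_ (Rz_small hz (2 ^ i) (2 ^ i) [])
    refine ((NmT_cst N _).mul h1).weaken ?_
    rw [← ENNReal.ofReal_pow (by linarith), ← ENNReal.ofReal_mul (by positivity)]
    apply ENNReal.ofReal_le_ofReal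
    have e4 : 2 ^ i ≤ 4 := by
      calc 2 ^ i ≤ 2 ^ 2 := Nat.pow_le_pow_right (by norm_num) (by omega)
        _ = 4 := by norm_num
    have e5 : lam ^ (2 ^ i) ≤ Real.exp (4 * lam) := by
      calc lam ^ (2 ^ i) ≤ lam ^ 4 := pow_le_pow_right₀ hl e4
        _ ≤ (Real.exp lam) ^ 4 := by gcongr
        _ = Real.exp (4 * lam) := by rw [← Real.exp_nat_mul]; norm_num
    calc lam ^ (2 ^ i) * Real.exp ((12 * Real.log N + 15000000 * c) + 1024 * c ^ 2)
        ≤ Real.exp (4 * lam) * Real.exp ((12 * Real.log N + 15000000 * (lam ^ 2 * c)) +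
          1024 * c ^ 2) := by gcongr
      _ = _ := by rw [← Real.exp_add]; congr 1; ring
  · rw [if_neg h3]
    obtain ⟨j, rfl⟩ : ∃ j, i = j + 3 := ⟨i - 3, by omega⟩
    have hj : 2 ^ (j + 3) = 8 * 2 ^ j := by rw [pow_add]; ring
    have hpj : 1 ≤ 2 ^ j := Nat.one_le_two_pow
    have hE' := hE (2 ^ (j + 3)) hp hi
    rw [hj, show 2 * (8 * 2 ^ j) = 16 * 2 ^ j by ring,
      show 16 * (8 * 2 ^ j) = 128 * 2 ^ j by ring] at hE'
    have h1 := scale_bound_dz (q := 2 ^ j) hpj hc hl hE'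
    rw [hj]
    refine (NmT.mono h1 (Rz_le_Rdz _ _ _ (Or.inl rfl))).weaken ?_
    apply ENNReal.ofReal_le_ofReal
    have e12 : Real.exp (12 * Real.log N) = (N : ℝ) ^ 12 := by
      rw [mul_comm, Real.exp_mul, Real.exp_log hN0]
      norm_cast
    have hN11 : (2048 : ℝ) ≤ (N : ℝ) ^ 11 := by
      calc (2048 : ℝ) = 2 ^ 11 := by norm_num
        _ ≤ _ := by gcongr
    have hN12 : (N : ℝ) ^ 12 = N * (N : ℝ) ^ 11 := by ring
    have h6 : (16 * ((2 ^ j : ℕ) : ℝ)) ≤ 2 * N := by
      have : (2 : ℝ) ^ (j + 3) = 8 * 2 ^ j := by rw [pow_add]; ring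
      rw [this] at hiN
      push_cast
      linarith
    have h7 : (16 * ((2 ^ j : ℕ) : ℝ) + 1) * 385 ≤ (N : ℝ) ^ 12 := by
      rw [hN12]
      nlinarith
    have h8 : lam ≤ Real.exp (4 * lam) :=
      hlam.trans (Real.exp_le_exp.mpr (by linarith))
    calc (16 * ((2 ^ j : ℕ) : ℝ) + 1) * (385 * lam) * Real.exp (15000000 * (lam ^ 2 * c))
        = ((16 * ((2 ^ j : ℕ) : ℝ) + 1) * 385) * lam * Real.exp (15000000 * (lam ^ 2 * c)) := by
          ring
      _ ≤ Real.exp (12 * Real.log N) * Real.exp (4 * lam) *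
          Real.exp (15000000 * (lam ^ 2 * c)) := by
          rw [e12]
          gcongr
      _ = _ := by rw [← Real.exp_add, ← Real.exp_add]; congr 1; ring

/-- half-plane words of length `N`, weighted by `z ^ w ω` -/
noncomputable def Hz (z : ℝ≥0∞) (w : List St → ℕ) (N : ℕ) : ℝ≥0∞ :=
  ∑' ω : List St, ind (Saw ω ∧ HP ω ∧ ω.length = N) * z ^ w ω

/-- the weight `w` is at most the number of bridges of a chain -/
def Wok (w : List St → ℕ) : Prop := ∀ (ω : List St) (A : ℕ) (α : List ℕ) (β : List St),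
  1 ≤ A → IsBr A β → HPc α β ω → Dec (A - 1) α → w ω ≤ α.length + 1

lemma chain_fz (z : ℝ≥0∞) (n : ℕ) : ∀ β : List St, fs (fun q : List ℕ × List St =>
    ii (Dec n q.1 ∧ HPc q.1 β q.2) * (cst (z ^ q.1.length) * xl q.2)) ≤ xl β * Rz z 1 n β := by
  induction n with
  | zero =>
    intro β
    have h1 : fs (fun q : List ℕ × List St => ii (Dec 0 q.1 ∧ HPc q.1 β q.2) *
        (cst (z ^ q.1.length) * xl q.2)) ≤ fs (fun q : Unit => ii True * xl β) := by
      refine fs_cover _ _ _ _ (fun _ => (([] : List ℕ), β)) ?_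
      rintro ⟨α, ω⟩ ⟨h1, h2⟩
      cases α with
      | nil =>
        simp only [HPc] at h2
        subst h2
        exact ⟨(), trivial, rfl, by simp⟩
      | cons A α =>
        obtain ⟨h3, h4, -⟩ := h1
        omega
    refine h1.trans ?_
    rw [fs_single _ () (fun j hj => absurd rfl hj), ii_of trivial, one_mul]
    simp [Rz]
  | succ n ih =>
    intro β
    have h1 : fs (fun q : List ℕ × List St => ii (Dec (n + 1) q.1 ∧ HPc q.1 β q.2) *
        (cst (z ^ q.1.length) * xl q.2)) ≤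
        fs (fun q : List ℕ × List St => ii (Dec n q.1 ∧ HPc q.1 β q.2) *
          (cst (z ^ q.1.length) * xl q.2) +
          ii (∃ α', q.1 = (n + 1) :: α' ∧ Dec n α' ∧ HPc q.1 β q.2) *
          (cst (z ^ q.1.length) * xl q.2)) := by
      apply fs_mono
      rintro ⟨α, ω⟩
      by_cases h : Dec (n + 1) α ∧ HPc α β ω
      · rw [ii_of h, one_mul]
        by_cases h' : Dec n α
        · simp only
          rw [ii_of (p := Dec n α ∧ HPc α β ω) ⟨h', h.2⟩, one_mul]
          exact le_self_add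
        · have : ∃ α', α = (n + 1) :: α' ∧ Dec n α' ∧ HPc α β ω := by
            obtain ⟨h1, h2⟩ := h
            cases α with
            | nil => exact absurd trivial h'
            | cons A α =>
              obtain ⟨h3, h4, h5⟩ := h1
              have hA : A = n + 1 := by
                by_contra hne
                exact h' ⟨h3, by omega, h5⟩
              subst hA
              exact ⟨α, rfl, by simpa using h5, h2⟩
          simp only
          rw [ii_of this, one_mul]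
          exact le_add_self
      · rw [ii_not h, zero_mul]; exact zero_le
    refine h1.trans ?_
    rw [fs_add]
    have h2 : fs (fun q : List ℕ × List St =>
          ii (∃ α', q.1 = (n + 1) :: α' ∧ Dec n α' ∧ HPc q.1 β q.2) *
          (cst (z ^ q.1.length) * xl q.2)) ≤
        fs (fun q : List St × (List ℕ × List St) => ii ((IsBr (1 + n) q.1 ∧ NCg β q.1) ∧
          (Dec n q.2.1 ∧ HPc q.2.1 q.1 q.2.2)) *
          (cst (z ^ (q.2.1.length + 1)) * (xl β * xl q.2.2))) := by
      refine fs_cover _ _ _ _ (fun q => ((n + 1) :: q.2.1, β ++ sg q.2.2)) ?_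
      rintro ⟨α, ω⟩ ⟨α', h3, h4, h5⟩
      simp only at h3 h5
      subst h3
      obtain ⟨β', ω', h6, h7, h8, h9⟩ := h5
      refine ⟨(β', (α', ω')), ⟨⟨by rw [add_comm]; exact h7, h8⟩, h4, h9⟩, ?_, ?_⟩
      · simp only; rw [h6]
      · simp only [List.length_cons]
        rw [h6, xl_append]
        unfold xl
        rw [length_sg]
    have h3 : fs (fun q : List St × (List ℕ × List St) => ii ((IsBr (1 + n) q.1 ∧ NCg β q.1) ∧
          (Dec n q.2.1 ∧ HPc q.2.1 q.1 q.2.2)) *
          (cst (z ^ (q.2.1.length + 1)) * (xl β * xl q.2.2))) ≤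
        xl β * (cst z *
          fs (fun β' => ii (IsBr (1 + n) β' ∧ NCg β β') * (xl β' * Rz z 1 n β'))) := by
      rw [fs_prod, mul_fs, mul_fs]
      apply fs_mono
      intro β'
      calc fs (fun q : List ℕ × List St => ii ((IsBr (1 + n) β' ∧ NCg β β') ∧
            (Dec n q.1 ∧ HPc q.1 β' q.2)) * (cst (z ^ (q.1.length + 1)) * (xl β * xl q.2)))
          = (ii (IsBr (1 + n) β' ∧ NCg β β') * cst z * xl β) * fs (fun q : List ℕ × List St =>
              ii (Dec n q.1 ∧ HPc q.1 β' q.2) * (cst (z ^ q.1.length) * xl q.2)) := by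
            rw [mul_fs]
            apply fs_congr
            intro q
            rw [ii_and (_ ∧ _) (_ ∧ _), pow_succ, cst_mul]; ring
        _ ≤ (ii (IsBr (1 + n) β' ∧ NCg β β') * cst z * xl β) * (xl β' * Rz z 1 n β') := by
            gcongr
            exact ih β'
        _ = _ := by ring
    calc _ ≤ xl β * Rz z 1 n β + xl β * (cst z *
          fs (fun β' => ii (IsBr (1 + n) β' ∧ NCg β β') * (xl β' * Rz z 1 n β'))) :=
          add_le_add (ih β) (h2.trans h3)
      _ = _ := by simp only [Rz]; ring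

lemma Rz_eq (z : ℝ≥0∞) (r k : ℕ) (β : List St) : Rz z r k β =
    1 + ∑ l ∈ Finset.range k, cst z * fs (fun β' => ii (IsBr (r + l) β' ∧ NCg β β') *
      (xl β' * Rz z r l β')) := by
  induction k with
  | zero => simp [Rz]
  | succ k ih =>
    rw [Finset.sum_range_succ, ← add_assoc, ← ih]
    rfl

theorem Hz_le_coeff {z : ℝ≥0∞} (hz : 1 ≤ z) {w : List St → ℕ} (hw : Wok w) {N : ℕ} (hN : N ≠ 0) :
    Hz z w N ≤ coeff N (Rz z 1 N []) := by
  have h1 : fs (fun ω : List St => ii ((Saw ω ∧ HP ω) ∧ ω.length = N) *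
      (cst (z ^ w ω) * xl ω)) ≤
      fs (fun q : (ℕ × List St) × (List ℕ × List St) =>
        ii ((q.1.1 < N ∧ IsBr (1 + q.1.1) q.1.2) ∧ (Dec q.1.1 q.2.1 ∧ HPc q.2.1 q.1.2 q.2.2)) *
          (cst (z ^ (q.2.1.length + 1)) * xl q.2.2)) := by
    refine fs_cover _ _ _ _ (fun q : (ℕ × List St) × (List ℕ × List St) => q.2.2) ?_
    rintro ω ⟨⟨h1, h2⟩, h3⟩
    obtain ⟨A, α, β, g1, g2, g3, g4, g5, g6⟩ := exists_unfold _ ω rfl h1 h2 (by
      rintro rfl; simp at h3; exact hN h3.symm)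
    refine ⟨((A - 1, β), (α, ω)), ⟨⟨?_, ?_⟩, g3, g4⟩, rfl, ?_⟩
    · simp only; omega
    · simp only
      rw [show 1 + (A - 1) = A by omega]
      exact g1
    · refine mul_le_mul' (cst_le ?_) le_rfl
      exact pow_le_pow_right₀ hz (hw ω A α β g2 g1 g4 g3)
  have h2 : fs (fun q : (ℕ × List St) × (List ℕ × List St) =>
        ii ((q.1.1 < N ∧ IsBr (1 + q.1.1) q.1.2) ∧ (Dec q.1.1 q.2.1 ∧ HPc q.2.1 q.1.2 q.2.2)) *
          (cst (z ^ (q.2.1.length + 1)) * xl q.2.2)) ≤ Rz z 1 N [] := by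
    rw [fs_prod, fs_prod, Rz_eq]
    have h3 : ∀ l : ℕ, fs (fun β : List St => fs (fun q : List ℕ × List St =>
        ii ((l < N ∧ IsBr (1 + l) β) ∧ (Dec l q.1 ∧ HPc q.1 β q.2)) *
          (cst (z ^ (q.1.length + 1)) * xl q.2))) ≤
        ii (l < N) * (cst z *
          fs (fun β' => ii (IsBr (1 + l) β' ∧ NCg [] β') * (xl β' * Rz z 1 l β'))) := by
      intro l
      rw [mul_fs, mul_fs]
      apply fs_mono
      intro β
      calc fs (fun q : List ℕ × List St =>
            ii ((l < N ∧ IsBr (1 + l) β) ∧ (Dec l q.1 ∧ HPc q.1 β q.2)) *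
              (cst (z ^ (q.1.length + 1)) * xl q.2))
          = ii (l < N) * ii (IsBr (1 + l) β) * cst z * fs (fun q : List ℕ × List St =>
            ii (Dec l q.1 ∧ HPc q.1 β q.2) * (cst (z ^ q.1.length) * xl q.2)) := by
            rw [mul_fs]
            apply fs_congr
            intro q
            rw [ii_and (_ ∧ _) (_ ∧ _), ii_and (l < N), pow_succ, cst_mul]; ring
        _ ≤ ii (l < N) * ii (IsBr (1 + l) β ∧ NCg [] β) * cst z * (xl β * Rz z 1 l β) := by
            gcongr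
            · exact ii_mono fun h => ⟨h, NCg_nil_left h.isB⟩
            · exact chain_fz z l β
        _ = _ := by ring
    calc _ ≤ fs (fun l : ℕ => ii (l < N) * (cst z *
          fs (fun β' => ii (IsBr (1 + l) β' ∧ NCg [] β') * (xl β' * Rz z 1 l β')))) := fs_mono h3
      _ = ∑ l ∈ Finset.range N, cst z *
          fs (fun β' => ii (IsBr (1 + l) β' ∧ NCg [] β') * (xl β' * Rz z 1 l β')) := by
          ext n
          rw [coeff_fs, map_sum, tsum_eq_sum (s := Finset.range N)]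
          · apply Finset.sum_congr rfl
            intro l hl
            rw [Finset.mem_range] at hl
            rw [ii_of hl, one_mul]
          · intro l hl
            rw [Finset.mem_range] at hl
            rw [ii_not hl, zero_mul, map_zero]
      _ ≤ _ := le_add_self
  have h3 := h1.trans h2 N
  refine le_trans (le_of_eq ?_) h3
  rw [coeff_fs]
  unfold Hz
  congr 1; ext ω
  rw [coeff_ii_mul, coeff_cst_mul, coeff_xl, mul_comm (z ^ w ω), ← mul_assoc, ← ind_and]
  congr 2
  apply propext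
  tauto

lemma Hz_le_of_NmT {z : ℝ≥0∞} (hz : 1 ≤ z) {w : List St → ℕ} (hw : Wok w)
    {N : ℕ} (hN : N ≠ 0) {M : ℕ} (hM : N ≤ 2 ^ M - 1) {c : ℝ≥0∞}
    (h : NmT N c (Rz z 1 (2 ^ M - 1) [])) : Hz z w N ≤ c * bn N := by
  calc Hz z w N ≤ coeff N (Rz z 1 N []) := Hz_le_coeff hz hw hN
    _ ≤ coeff N (Rz z 1 (2 ^ M - 1) []) := Rz_mono 1 hM [] N
    _ ≤ coeff N (Rz z 1 (2 ^ M - 1) [] * Bs) := by
        have : Rz z 1 (2 ^ M - 1) [] * 1 ≤ Rz z 1 (2 ^ M - 1) [] * Bs := by
          gcongr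
          exact one_le_Bs
        rw [mul_one] at this
        exact this N
    _ ≤ coeff N (cst c * Bs) := h N le_rfl
    _ = _ := by rw [coeff_cst_mul]; rfl

/-- **half-plane walks versus bridges, with weights** -/
theorem Hz_le_d {N : ℕ} (hN : 2 ≤ N) {c lam : ℝ} (hc : 0 ≤ c) (hl : 1 ≤ lam)
    {w : List St → ℕ} (hw : Wok w)
    (hE : ∀ r, 1 ≤ r → r ≤ N → LeT N (Ec r (2 * r)) (cst (ENNReal.ofReal c) * Us (16 * r))) :
    Hz (ENNReal.ofReal lam) w N ≤ ENNReal.ofReal (Real.exp (4 * Real.log N *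
      (12 * Real.log N + 15000000 * (lam ^ 2 * c) + 4 * lam) + 3072 * c ^ 2)) * bn N := by
  have hz : 1 ≤ ENNReal.ofReal lam := by
    rw [← ENNReal.ofReal_one]; exact ENNReal.ofReal_le_ofReal hl
  have hNr : (2 : ℝ) ≤ N := by exact_mod_cast hN
  have hN0 : (0 : ℝ) < N := by linarith
  have hl2 := log_two_gt'
  have hlN : Real.log 2 ≤ Real.log N := Real.log_le_log (by norm_num) hNr
  obtain ⟨M, hMdef⟩ : ∃ M, M = Nat.log 2 N + 1 := ⟨_, rfl⟩
  have hM1 : N < 2 ^ M := by rw [hMdef]; exact Nat.lt_pow_succ_log_self (by norm_num) N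
  have hM2 : ∀ i < M, 2 ^ i ≤ N := by
    intro i hi
    calc 2 ^ i ≤ 2 ^ (Nat.log 2 N) := Nat.pow_le_pow_right (by norm_num) (by omega)
      _ ≤ N := Nat.pow_log_le_self 2 (by omega)
  have hnorm : NmT N (ENNReal.ofReal (∏ i ∈ Finset.range M,
      Real.exp ((12 * Real.log N + 15000000 * (lam ^ 2 * c) + 4 * lam) +
        (if i < 3 then 1024 * c ^ 2 else 0))))
      (Rz (ENNReal.ofReal lam) 1 (2 ^ M - 1) []) := by
    refine NmT.mono ?_ (Rz_prod M)
    rw [ENNReal.ofReal_prod_of_nonneg (fun i _ => by positivity)]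
    apply NmT.prod
    intro i hi
    rw [Finset.mem_range] at hi
    exact scale_bound_iz hc hl i (hM2 i hi) hN hE
  have h1 := Hz_le_of_NmT hz hw (N := N) (by omega) (M := M) (by omega) hnorm
  refine h1.trans ?_
  gcongr
  have hM3 : (M : ℝ) ≤ 4 * Real.log N := by
    have h2 : ((Nat.log 2 N : ℕ) : ℝ) * Real.log 2 ≤ Real.log N := by
      rw [← Real.log_pow]
      apply Real.log_le_log (by positivity)
      exact_mod_cast Nat.pow_log_le_self 2 (by omega : N ≠ 0)
    rw [hMdef]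
    push_cast
    nlinarith
  rw [← Real.exp_sum, Finset.sum_add_distrib, Finset.sum_const, Finset.card_range, nsmul_eq_mul]
  apply Real.exp_le_exp.mpr
  refine add_le_add ?_ ?_
  · have : 0 ≤ 12 * Real.log N + 15000000 * (lam ^ 2 * c) + 4 * lam := by
      have : 0 ≤ Real.log N := by linarith
      positivity
    gcongr
  · rw [← Finset.sum_filter]
    rw [Finset.sum_const, nsmul_eq_mul]
    have h4 : ((Finset.range M).filter (fun i => i < 3)).card ≤ 3 := by
      calc _ ≤ (Finset.range 3).card := by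
            apply Finset.card_le_card
            intro i hi
            rw [Finset.mem_filter] at hi
            exact Finset.mem_range.mpr hi.2
        _ = 3 := Finset.card_range 3
    have h5 : ((((Finset.range M).filter (fun i => i < 3)).card : ℕ) : ℝ) ≤ 3 := by
      exact_mod_cast h4
    nlinarith [sq_nonneg c]

lemma dec_sum_zero {n : ℕ} {α : List ℕ} (h : Dec n α) (h0 : α.sum = 0) : α = [] := by
  cases α with
  | nil => rfl
  | cons A α =>
    have := h.1
    rw [List.sum_cons] at h0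
    omega

/-- **Half-plane words**: the weighted sum is at most `exp (K λ² (1 + log (N + 1))²)` times the
number of bridges. -/
theorem Hz_bound : ∃ K : ℝ, 0 ≤ K ∧ ∀ (w : List St → ℕ), Wok w → w [] = 0 → ∀ lam : ℝ, 1 ≤ lam →
    ∀ N : ℕ, Hz (ENNReal.ofReal lam) w N ≤
      ENNReal.ofReal (Real.exp (K * (lam ^ 2 * (1 + Real.log ((N : ℝ) + 1)) ^ 2))) * bn N := by
  obtain ⟨K₁, hK₁, h1⟩ := hh_small
  obtain ⟨C, hC⟩ : ∃ C : ℝ, C = 48 + 60000000 * 164 + 16 + 3072 * 164 ^ 2 := ⟨_, rfl⟩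
  have hC0 : 0 ≤ C := by rw [hC]; norm_num
  refine ⟨K₁ + 1 + C, by positivity, fun w hw hw0 lam hl N => ?_⟩
  have hz : 1 ≤ ENNReal.ofReal lam := by
    rw [← ENNReal.ofReal_one]; exact ENNReal.ofReal_le_ofReal hl
  have hlam : lam ≤ Real.exp lam := by
    have := Real.add_one_le_exp lam
    linarith
  have hlam2 : lam ≤ lam ^ 2 := by nlinarith
  have hlam21 : 1 ≤ lam ^ 2 := by nlinarith
  set l : ℝ := 1 + Real.log ((N : ℝ) + 1) with hldef
  have hl1 : 1 ≤ l := ell_ge_one N
  have hlm : 1 ≤ l ^ 2 := one_le_pow₀ hl1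
  rcases Nat.lt_or_ge N 2 with hN | hN
  · have h2 : Hz (ENNReal.ofReal lam) w N ≤ ENNReal.ofReal lam * hh N := by
      unfold Hz hh
      rw [← ENNReal.tsum_mul_left]
      apply ENNReal.tsum_le_tsum
      intro ω
      by_cases h : Saw ω ∧ HP ω ∧ ω.length = N
      · rw [ind_of h, one_mul, mul_one]
        by_cases h0 : ω = []
        · rw [h0, hw0, pow_zero]; exact hz
        · obtain ⟨A, α, β, g1, g2, g3, g4, g5, g6⟩ := exists_unfold _ ω rfl h.1 h.2.1 h0
          have hα : α = [] := dec_sum_zero g3 (by omega)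
          have := hw ω A α β g2 g1 g4 g3
          rw [hα] at this
          calc ENNReal.ofReal lam ^ w ω ≤ ENNReal.ofReal lam ^ 1 :=
                pow_le_pow_right₀ hz (by simpa using this)
            _ = _ := pow_one _
      · rw [ind_not h, zero_mul]; exact zero_le
    refine h2.trans ((mul_le_mul' le_rfl (h1 N (by omega))).trans ?_)
    rw [← mul_assoc, ← ENNReal.ofReal_mul (by linarith)]
    refine mul_le_mul' (ENNReal.ofReal_le_ofReal ?_) le_rfl
    calc lam * Real.exp K₁ ≤ Real.exp lam * Real.exp K₁ := by gcongr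
      _ = Real.exp (lam + K₁) := (Real.exp_add _ _).symm
      _ ≤ _ := by
        apply Real.exp_le_exp.mpr
        have h3 : lam ^ 2 ≤ lam ^ 2 * l ^ 2 := by nlinarith
        have h4 : K₁ * 1 ≤ K₁ * (lam ^ 2 * l ^ 2) := by
          apply mul_le_mul_of_nonneg_left _ hK₁
          nlinarith
        have h5 : 0 ≤ C * (lam ^ 2 * l ^ 2) := by positivity
        nlinarith
  · have hNr : (2 : ℝ) ≤ N := by exact_mod_cast hN
    have hlog0 : 0 ≤ Real.log N := Real.log_nonneg (by linarith)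
    have hlogl : Real.log N ≤ l := by
      have : Real.log (N : ℝ) ≤ Real.log ((N : ℝ) + 1) :=
        Real.log_le_log (by linarith) (by linarith)
      rw [hldef]; linarith
    refine (Hz_le_d hN (c := 164 * Real.log N) (by positivity) hl hw
      (fun r h1 h2 => Ec_bound hN h1 h2)).trans
      (mul_le_mul' (ENNReal.ofReal_le_ofReal (Real.exp_le_exp.mpr ?_)) le_rfl)
    have hll : l ≤ l ^ 2 := by nlinarith
    calc 4 * Real.log N * (12 * Real.log N + 15000000 * (lam ^ 2 * (164 * Real.log N)) +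
          4 * lam) + 3072 * (164 * Real.log N) ^ 2
        ≤ 4 * l * (12 * l + 15000000 * (lam ^ 2 * (164 * l)) + 4 * lam) + 3072 * (164 * l) ^ 2 := by
          gcongr
      _ = 48 * (1 * l ^ 2) + 60000000 * 164 * (lam ^ 2 * l ^ 2) + 16 * (lam * l) +
          3072 * 164 ^ 2 * (1 * l ^ 2) := by ring
      _ ≤ 48 * (lam ^ 2 * l ^ 2) + 60000000 * 164 * (lam ^ 2 * l ^ 2) + 16 * (lam ^ 2 * l ^ 2) +
          3072 * 164 ^ 2 * (lam ^ 2 * l ^ 2) := by gcongr
      _ = C * (lam ^ 2 * l ^ 2) := by rw [hC]; ring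
      _ ≤ (K₁ + 1 + C) * (lam ^ 2 * l ^ 2) :=
        mul_le_mul_of_nonneg_right (by linarith) (by positivity)

end Run7.h529.FB
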