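import Pool.Agent.Run7.h529.FB.ZCut
import Pool.Agent.Run7.h529.FB.Defs

/-!
From words to walks.
-/

set_option linter.unusedSectionVars false

namespace Run7.h529.FB

open H982 hiding PU
open scoped ENNReal

variable {n : ℕ}

/-! ### concatenations -/

lemma bridge_self (x : Fin (n + 1) → ℤ) (s : Fin (n + 1)) : Bridge x s s := by
  refine ⟨le_rfl, Or.inl fun i h1 h2 => ?_⟩
  have : i = s := le_antisymm h2 h1
  subst this
  exact ⟨le_rfl, le_rfl⟩

lemma CutInto.cons {x : Fin (n + 1) → ℤ} {m : ℕ} {s s' t : Fin (n + 1)}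
    (h : Bridge x s s') (h' : CutInto x m s' t) : CutInto x (m + 1) s t := by
  obtain ⟨τ, h1, h2, h3⟩ := h'
  refine ⟨fun i => if i = 0 then s else τ (i - 1), by simp, by simp [h2], ?_⟩
  intro i hi
  rcases Nat.eq_zero_or_pos i with rfl | h0
  · simp [h1, h]
  · have := h3 (i - 1) (by omega)
    rw [show i - 1 + 1 = i by omega] at this
    simp only [Nat.add_sub_cancel]
    rw [if_neg (by omega), if_neg (by omega)]
    exact this

lemma CutInto.mono {x : Fin (n + 1) → ℤ} {m m' : ℕ} {s t : Fin (n + 1)}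
    (h : CutInto x m s t) (hm : m ≤ m') : CutInto x m' s t := by
  induction m', hm using Nat.le_induction with
  | base => exact h
  | succ m' _ ih => exact CutInto.cons (bridge_self x s) ih

/-- `v` is a word of length `n` with the horizontal coordinates `x` -/
def IsWd (v : List St) (x : Fin (n + 1) → ℤ) : Prop :=
  v.length = n ∧ ∃ x0 : ℤ, ∀ i : Fin (n + 1), dx (v.take i) = x i - x0

/-- words and walks -/
lemma cutInto_of_cut {v : List St} {x : Fin (n + 1) → ℤ} (hv : IsWd v x) (m : ℕ) :
    ∀ s t : Fin (n + 1), s ≤ t → Cut m ((v.take t).drop s) → CutInto x m s t := by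
  obtain ⟨hlen, x0, hdx⟩ := hv
  induction m with
  | zero =>
    intro s t hst h
    simp only [Cut] at h
    have h1 := congrArg List.length h
    rw [List.length_drop, List.length_take, hlen, List.length_nil] at h1
    have h2 : (s : ℕ) ≤ t := hst
    have h3 := t.2
    have h4 : s = t := Fin.ext (by omega)
    subst h4
    exact ⟨fun _ => s, rfl, rfl, fun i hi => absurd hi (by omega)⟩
  | succ m ih =>
    intro s t hst h
    obtain ⟨u, v', h1, h2, h3⟩ := h
    have hl := congrArg List.length h1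
    rw [List.length_drop, List.length_take, hlen, List.length_append] at hl
    have hst' : (s : ℕ) ≤ t := hst
    have ht := t.2
    have hs' : (s : ℕ) + u.length < n + 1 := by omega
    have hv' : v' = (v.take t).drop ((s : ℕ) + u.length) := by
      rw [← List.drop_drop, h1, List.drop_left]
    obtain ⟨s', hs'd⟩ : ∃ s' : Fin (n + 1), (s' : ℕ) = s + u.length := ⟨⟨_, hs'⟩, rfl⟩
    have hss' : s ≤ s' := by
      rw [Fin.le_def]; omega
    have hs't : s' ≤ t := by
      rw [Fin.le_def]; omega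
    have h4 := ih s' t hs't (by rw [hs'd, ← hv']; exact h3)
    refine CutInto.cons ⟨hss', ?_⟩ h4
    -- prefixes of the first piece
    have e2 : (v.drop s).take (t - s) = u ++ v' := by
      rw [← h1, List.drop_take]
    have key : ∀ i : Fin (n + 1), s ≤ i → i ≤ s' →
        ∃ p, p <+: u ∧ dx p = x i - x s := by
      intro i hi1 hi2
      rw [Fin.le_def] at hi1 hi2
      refine ⟨u.take (i - s), List.take_prefix _ _, ?_⟩
      have e1 : v.take i = v.take s ++ u.take (i - s) := by
        have e3 : v.take i = v.take s ++ (v.drop s).take (i - s) := by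
          rw [← List.take_add]; congr 1; omega
        have e4 : (v.drop s).take (i - s) = u.take (i - s) := by
          have e5 : (v.drop s).take (i - s) = ((v.drop s).take (t - s)).take (i - s) := by
            rw [List.take_take]; congr 1; omega
          rw [e5, e2, List.take_append_of_le_length (by omega)]
        rw [e3, e4]
      have e6 := congrArg dx e1
      rw [dx_append, hdx, hdx] at e6
      omega
    have hfull : dx u = x s' - x s := by
      have e1 : v.take s' = v.take s ++ u := by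
        have e3 : v.take s' = v.take s ++ (v.drop s).take u.length := by
          rw [← List.take_add, hs'd]
        have e4 : (v.drop s).take u.length = u := by
          have e5 : (v.drop s).take u.length =
              ((v.drop s).take (t - s)).take u.length := by
            rw [List.take_take]; congr 1; omega
          rw [e5, e2, List.take_left']
          rfl
        rw [e3, e4]
      have e6 := congrArg dx e1
      rw [dx_append, hdx, hdx] at e6
      omega
    rcases h2 with h2 | h2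
    · left
      intro i hi1 hi2
      obtain ⟨p, hp, hd⟩ := key i hi1 hi2
      have := h2 p hp
      omega
    · right
      intro i hi1 hi2
      obtain ⟨p, hp, hd⟩ := key i hi1 hi2
      have := h2 p hp
      omega

/-- number of bridges needed for one piece -/
noncomputable def need (v : List St) (s t : Fin (n + 1)) : ℕ := nu ((v.take t).drop s)

lemma need_spec {v : List St} {x : Fin (n + 1) → ℤ} (hv : IsWd v x) {s t : Fin (n + 1)}
    (h : s ≤ t) : CutInto x (need v s t) s t :=
  cutInto_of_cut hv _ s t h (nu_spec _)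

lemma V_ne {v : List St} {x : Fin (n + 1) → ℤ} (hv : IsWd v x) :
    ∃ m, ∀ s t : Fin (n + 1), s ≤ t → CutInto x m s t := by
  classical
  refine ⟨Finset.univ.sup (fun p : Fin (n + 1) × Fin (n + 1) => need v p.1 p.2), ?_⟩
  intro s t hst
  refine (need_spec hv hst).mono ?_
  exact Finset.le_sup (f := fun p : Fin (n + 1) × Fin (n + 1) => need v p.1 p.2)
      (Finset.mem_univ (s, t))

lemma V_spec {v : List St} {x : Fin (n + 1) → ℤ} (hv : IsWd v x) {s t : Fin (n + 1)}
    (h : s ≤ t) : CutInto x (V x) s t :=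
  Nat.sInf_mem (s := {m | ∀ s t : Fin (n + 1), s ≤ t → CutInto x m s t}) (V_ne hv) s t h

lemma V_le {v : List St} {x : Fin (n + 1) → ℤ} (hv : IsWd v x) (z : ℝ≥0∞) (hz : 1 ≤ z) :
    z ^ V x ≤ ∑ p : Fin (n + 1) × Fin (n + 1), z ^ need v p.1 p.2 := by
  classical
  obtain ⟨p, -, hp⟩ := Finset.exists_mem_eq_sup (Finset.univ : Finset (Fin (n + 1) × Fin (n + 1)))
    ⟨(0, 0), Finset.mem_univ _⟩ (fun p => need v p.1 p.2)
  have h1 : V x ≤ need v p.1 p.2 := by
    apply Nat.sInf_le
    intro s t hst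
    refine (need_spec hv hst).mono ?_
    rw [← hp]
    exact Finset.le_sup (f := fun p : Fin (n + 1) × Fin (n + 1) => need v p.1 p.2)
      (Finset.mem_univ (s, t))
  calc z ^ V x ≤ z ^ need v p.1 p.2 := pow_le_pow_right₀ hz h1
    _ ≤ _ := Finset.single_le_sum
      (f := fun p : Fin (n + 1) × Fin (n + 1) => z ^ need v p.1 p.2)
      (fun _ _ => zero_le) (Finset.mem_univ p)

/-! ### the sum over all walks -/

variable [L : H982.Lat]

lemma sum_need_le {T : Type} [Fintype T] (W : T → List St)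
    (hW : ∀ ω, Saw (W ω) ∧ (W ω).length = n) (hinj : Function.Injective W)
    {z : ℝ≥0∞} (hz : 1 ≤ z) (s t : Fin (n + 1)) :
    ∑ ω : T, z ^ need (W ω) s t ≤
      Tz z (min (s : ℕ) n) * (Tz z ((t : ℕ) - s) * Tz z (n - max (s : ℕ) t)) := by
  have h0 : ∑ ω : T, z ^ need (W ω) s t = ∑' ω : T, ind True * z ^ need (W ω) s t := by
    rw [tsum_fintype]
    apply Finset.sum_congr rfl
    intro ω _
    rw [ind_of trivial, one_mul]
  have hs := s.2
  have ht := t.2
  rw [h0]
  have h1 : ∑' ω : T, ind True * z ^ need (W ω) s t ≤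
      ∑' p : List St × (List St × List St), ind ((Saw p.1 ∧ p.1.length = min (s : ℕ) n) ∧
        ((Saw p.2.1 ∧ p.2.1.length = (t : ℕ) - s) ∧
          (Saw p.2.2 ∧ p.2.2.length = n - max (s : ℕ) t))) *
        (z ^ nu p.1 * (z ^ nu p.2.1 * z ^ nu p.2.2)) := by
    refine tsum_inj (fun _ : T => True) _ (fun ω => z ^ need (W ω) s t) _
      (fun ω => ((W ω).take s, (((W ω).take t).drop s, (W ω).drop (max (s : ℕ) t)))) ?_ ?_ ?_
    · rintro ω ω' - - h
      simp only [Prod.mk.injEq] at h
      obtain ⟨h1, h2, h3⟩ := h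
      apply hinj
      rcases le_total (s : ℕ) t with hst | hst
      · have e : ∀ v : List St, v = v.take s ++ ((v.take t).drop s ++ v.drop (max (s:ℕ) t)) := by
          intro v
          rw [max_eq_right hst]
          have e1 : v.take s = (v.take t).take s := by
            rw [List.take_take, min_eq_left hst]
          rw [e1, ← List.append_assoc, List.take_append_drop, List.take_append_drop]
        rw [e (W ω), e (W ω'), h1, h2, h3]
      · have e : ∀ v : List St, v = v.take s ++ v.drop (max (s:ℕ) t) := by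
          intro v
          rw [max_eq_left hst, List.take_append_drop]
        rw [e (W ω), e (W ω'), h1, h3]
    · rintro ω -
      obtain ⟨hS, hl⟩ := hW ω
      refine ⟨⟨hS.subw (List.take_prefix _ _).isInfix, ?_⟩,
        ⟨(hS.subw (List.take_prefix t _).isInfix).subw (List.drop_suffix _ _).isInfix, ?_⟩,
        ⟨hS.subw (List.drop_suffix _ _).isInfix, ?_⟩⟩
      · rw [List.length_take, hl]
      · simp only [List.length_drop, List.length_take, hl]; omega
      · simp only [List.length_drop, hl]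
    · rintro ω -
      simp only [need]
      have k1 : ∀ m : ℕ, (1 : ℝ≥0∞) ≤ z ^ m := fun m => one_le_pow₀ hz
      calc z ^ nu (((W ω).take t).drop s) = 1 * (z ^ nu (((W ω).take t).drop s) * 1) := by ring
        _ ≤ _ := mul_le_mul' (k1 _) (mul_le_mul' le_rfl (k1 _))
  refine h1.trans (le_of_eq ?_)
  unfold Tz
  rw [tsum_mul_tsum' (fun u => ind (Saw u ∧ u.length = (t : ℕ) - s) * z ^ nu u)
      (fun u => ind (Saw u ∧ u.length = n - max (s : ℕ) t) * z ^ nu u),
    tsum_mul_tsum' (fun u => ind (Saw u ∧ u.length = min (s : ℕ) n) * z ^ nu u)]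
  congr 1; ext p
  rw [ind_and (_ ∧ _) (_ ∧ _), ind_and (_ ∧ _) (_ ∧ _)]
  ring

/-- **exponential moments**, for a family of walks which is described by words -/
theorem gen_V : ∃ K : ℝ, 0 < K ∧ ∀ n : ℕ, 2 ≤ n → ∀ (T : Type) [Fintype T] (W : T → List St)
    (X : T → Fin (n + 1) → ℤ), (∀ ω, Saw (W ω) ∧ (W ω).length = n) → Function.Injective W →
    (∀ ω, IsWd (W ω) (X ω)) → mu ^ n ≤ Fintype.card T → ∀ lam : ℝ, 1 ≤ lam →
    (∑ ω, lam ^ V (X ω)) / Fintype.card T ≤ Real.exp (K * lam ^ 2 * Real.log n ^ 2) := by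
  obtain ⟨K, hK, hT⟩ := Tz_bound
  refine ⟨16 * (3 * K + 2), by positivity, fun n hn T _ W X hW hinj hX hcard lam hl => ?_⟩
  have hz : 1 ≤ ENNReal.ofReal lam := by
    rw [← ENNReal.ofReal_one]; exact ENNReal.ofReal_le_ofReal hl
  have hlam21 : 1 ≤ lam ^ 2 := by nlinarith
  set l : ℝ := 1 + Real.log ((n : ℝ) + 1) with hldef
  have hl1 : 1 ≤ l := ell_ge_one n
  set E : ℝ := K * (lam ^ 2 * l ^ 2) with hE
  have hmu := mu_pos
  have hcpos : (0 : ℝ) < Fintype.card T := lt_of_lt_of_le (pow_pos hmu n) hcard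
  have hT' : ∀ j : ℕ, j ≤ n → Tz (ENNReal.ofReal lam) j ≤
      ENNReal.ofReal (mu ^ j * Real.exp E) := by
    intro j hj
    refine (hT lam hl j).trans (ENNReal.ofReal_le_ofReal ?_)
    have hj' : (j : ℝ) ≤ n := by exact_mod_cast hj
    have h0 : (0 : ℝ) ≤ j := Nat.cast_nonneg j
    have h2 : 0 ≤ Real.log ((j : ℝ) + 1) := Real.log_nonneg (by linarith)
    have h3 : Real.log ((j : ℝ) + 1) ≤ Real.log ((n : ℝ) + 1) :=
      Real.log_le_log (by linarith) (by linarith)
    rw [hE, hldef]
    gcongr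
  have h1 : ∑ ω : T, ENNReal.ofReal lam ^ V (X ω) ≤
      ENNReal.ofReal (((n : ℝ) + 1) ^ 2 * (mu ^ n * Real.exp (3 * E))) := by
    calc ∑ ω : T, ENNReal.ofReal lam ^ V (X ω)
        ≤ ∑ ω : T, ∑ p : Fin (n + 1) × Fin (n + 1), ENNReal.ofReal lam ^ need (W ω) p.1 p.2 :=
          Finset.sum_le_sum fun ω _ => V_le (hX ω) _ hz
      _ = ∑ p : Fin (n + 1) × Fin (n + 1), ∑ ω : T, ENNReal.ofReal lam ^ need (W ω) p.1 p.2 :=
          Finset.sum_comm
      _ ≤ ∑ p : Fin (n + 1) × Fin (n + 1),
          ENNReal.ofReal (mu ^ n * Real.exp (3 * E)) := by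
          apply Finset.sum_le_sum
          rintro ⟨s, t⟩ -
          refine (sum_need_le W hW hinj hz s t).trans ?_
          have hs := s.2
          have ht := t.2
          refine (mul_le_mul' (hT' _ (min_le_right _ _)) (mul_le_mul' (hT' _ (by omega))
            (hT' _ (by omega)))).trans ?_
          rw [← ENNReal.ofReal_mul (by positivity), ← ENNReal.ofReal_mul (by positivity)]
          apply ENNReal.ofReal_le_ofReal
          have e1 : Real.exp (3 * E) = Real.exp E * (Real.exp E * Real.exp E) := by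
            rw [← Real.exp_add, ← Real.exp_add]; congr 1; ring
          have e2 : min (s : ℕ) n + (((t : ℕ) - s) + (n - max (s : ℕ) t)) ≤ n := by omega
          calc mu ^ min (s : ℕ) n * Real.exp E * (mu ^ ((t : ℕ) - s) * Real.exp E *
                (mu ^ (n - max (s : ℕ) t) * Real.exp E))
              = mu ^ (min (s : ℕ) n + (((t : ℕ) - s) + (n - max (s : ℕ) t))) *
                (Real.exp E * (Real.exp E * Real.exp E)) := by
                rw [pow_add, pow_add]; ring
            _ ≤ mu ^ n * Real.exp (3 * E) := by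
                rw [e1]
                gcongr
                exact one_le_mu
      _ = _ := by
          rw [Finset.sum_const, Finset.card_univ, Fintype.card_prod, Fintype.card_fin,
            nsmul_eq_mul]
          have e3 : (((n + 1) * (n + 1) : ℕ) : ℝ≥0∞) = ENNReal.ofReal (((n : ℝ) + 1) ^ 2) := by
            rw [← ENNReal.ofReal_natCast]; congr 1; push_cast; ring
          rw [e3, ← ENNReal.ofReal_mul (by positivity)]
  have h2 : ∑ ω : T, lam ^ V (X ω) ≤
      ((n : ℝ) + 1) ^ 2 * (mu ^ n * Real.exp (3 * E)) := by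
    have e4 : ∑ ω : T, ENNReal.ofReal lam ^ V (X ω) =
        ENNReal.ofReal (∑ ω : T, lam ^ V (X ω)) := by
      rw [ENNReal.ofReal_sum_of_nonneg (fun ω _ => by positivity)]
      apply Finset.sum_congr rfl
      intro ω _
      rw [ENNReal.ofReal_pow (by linarith)]
    rw [e4] at h1
    exact (ENNReal.ofReal_le_ofReal_iff (by positivity)).mp h1
  rw [div_le_iff₀ hcpos]
  have hn' : (2 : ℝ) ≤ n := by exact_mod_cast hn
  have h5 : ((n : ℝ) + 1) ^ 2 ≤ Real.exp (2 * (lam ^ 2 * l ^ 2)) := by
    have h6 : (n : ℝ) + 1 ≤ Real.exp (lam ^ 2 * l ^ 2) := by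
      calc (n : ℝ) + 1 = Real.exp (Real.log ((n : ℝ) + 1)) := (Real.exp_log (by linarith)).symm
        _ ≤ _ := Real.exp_le_exp.mpr (by rw [hldef] at hl1 ⊢; nlinarith)
    calc ((n : ℝ) + 1) ^ 2 ≤ (Real.exp (lam ^ 2 * l ^ 2)) ^ 2 := by gcongr
      _ = _ := by rw [← Real.exp_nat_mul]; norm_num
  have hl4 : l ≤ 4 * Real.log n := by
    have h7 := aux_log hn
    have h8 : Real.log ((n : ℝ) + 1) ≤ Real.log ((n : ℝ) + 1 + 1) :=
      Real.log_le_log (by linarith) (by linarith)
    rw [hldef]
    linarith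
  calc ∑ ω : T, lam ^ V (X ω) ≤ ((n : ℝ) + 1) ^ 2 * (mu ^ n * Real.exp (3 * E)) := h2
    _ ≤ Real.exp (2 * (lam ^ 2 * l ^ 2)) * (Fintype.card T * Real.exp (3 * E)) := by
        gcongr
    _ = Real.exp ((3 * K + 2) * lam ^ 2 * l ^ 2) * Fintype.card T := by
        have e5 : (3 * K + 2) * lam ^ 2 * l ^ 2 = 2 * (lam ^ 2 * l ^ 2) + 3 * E := by
          rw [hE]; ring
        rw [e5, Real.exp_add]; ring
    _ ≤ _ := by
        refine mul_le_mul_of_nonneg_right (Real.exp_le_exp.mpr ?_) hcpos.le
        calc (3 * K + 2) * lam ^ 2 * l ^ 2 ≤ (3 * K + 2) * lam ^ 2 * (4 * Real.log n) ^ 2 := by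
              gcongr
          _ = _ := by ring

/-- the word of a walk -/
lemma exists_word {A : ℤ × ℤ → ℤ × ℤ → Prop} {φ : ℤ × ℤ → ℤ × ℤ}
    {R : ℕ → ℤ × ℤ → Prop} (H : Coord A φ R) {f : Fin (n + 1) → ℤ × ℤ} (hf : f ∈ walks A n) :
    ∃ w : List St, (Saw w ∧ w.length = n) ∧ IsWd w (fun i => (φ (f i)).1) ∧
      ∀ i : Fin (n + 1), gw φ w i = f i := by
  obtain ⟨w, hw, h⟩ := exists_gw H hf
  refine ⟨w, hw, ⟨hw.2, 0, fun i => ?_⟩, h⟩
  have h1 := (gw_spec H hw.1.2 i (by have := i.2; omega)).1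
  rw [h i] at h1
  simp only [h1, pf, sub_zero]

/-- the theorem in coordinates: `B` is a map which preserves the lattice -/
theorem gen_walk {A : ℤ × ℤ → ℤ × ℤ → Prop} {φ : ℤ × ℤ → ℤ × ℤ}
    {R : ℕ → ℤ × ℤ → Prop} (H : Coord A φ R) : ∃ K : ℝ, 0 < K ∧ ∀ n : ℕ, 2 ≤ n →
    ∀ (T : Type) [Fintype T] (P : T → Fin (n + 1) → ℤ × ℤ), Function.Injective P →
    Set.range P = walks A n → ∀ (B : ℤ × ℤ → ℤ × ℤ), Function.Injective B → B 0 = 0 →
    (∀ p q, A p q → A (B p) (B q)) → ∀ lam : ℝ, 1 ≤ lam →
    (∑ ω : T, lam ^ V (fun i => (φ (B (P ω i))).1)) / Fintype.card T ≤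
      Real.exp (K * lam ^ 2 * Real.log n ^ 2) := by
  obtain ⟨K, hK, h⟩ := gen_V
  refine ⟨K, hK, fun n hn T _ P hP hr B hB hB0 hBA lam hl => ?_⟩
  have hmem : ∀ ω, (fun i => B (P ω i)) ∈ walks A n := by
    intro ω
    have h1 : P ω ∈ walks A n := by rw [← hr]; exact ⟨ω, rfl⟩
    obtain ⟨h2, h3, h4⟩ := h1
    exact ⟨by simp only [h2, hB0], hB.comp h3, fun i => hBA _ _ (h4 i)⟩
  choose W hW1 hW2 hW3 using fun ω => exists_word H (hmem ω)
  refine h n hn T W _ hW1 ?_ hW2 ?_ lam hl
  · intro ω ω' he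
    apply hP
    funext i
    apply hB
    rw [← hW3 ω i, ← hW3 ω' i, he]
  · have h1 := mu_pow_le n
    rw [← ncard_walks H n, ← hr] at h1
    have h2 : (Set.range P).ncard = Fintype.card T := by
      rw [Set.ncard_eq_toFinset_card', Set.toFinset_range, Finset.card_image_of_injective _ hP,
        Finset.card_univ]
    rw [h2] at h1
    exact h1

end Run7.h529.FB
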